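import Pool.Agent.Y5.S2.Stm2
import Pool.Agent.Y5.G.Asm

/-! The assembly: dilation, completion, passage to fields. -/

open Set Filter Topology MeasureTheory

set_option autoImplicit false

namespace Pool.Agent.Y5.S2

open Pool.Agent.Y5 Pool.Agent.Y5.D Pool.Agent.Y5.E Pool.Agent.Y5.F
open Pool.Agent.Y6.N (lin Dm Skew SolN S_FLDB dirb)
open Pool.Agent.Y5.G (OB S_DIL S_CMP S_OBC Kx dil res fk eC Dv pair_smul_left pair_smul_right
  bil_smul fieldOf_smul ot_smul dil_norm l1_of_bdd)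
open Pool.Agent.Y274.NE (Bs)

lemma fsol_mono {I : Type} {ν : ℝ} {e : I → Fam} {σ : I → I} {s : I → ℝ} {T S : ℝ}
    {V : ℝ → Fam} (h : FSol ν e σ s T V) (hS : S ≤ T) : FSol ν e σ s S V := by
  have hsub : Ico 0 S ⊆ Ico 0 T := fun t ht => ⟨ht.1, lt_of_lt_of_le ht.2 hS⟩
  exact ⟨fun t ht => h.ot t (hsub ht), fun m T' hT' => h.rap m T' (lt_of_lt_of_le hT' hS),
    fun i t ht => (h.eqn i t (hsub ht)).mono hsub⟩

lemma fsol_rap {I : Type} {ν : ℝ} {e : I → Fam} {σ : I → I} {s : I → ℝ} {T : ℝ}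
    {V : ℝ → Fam} (h : FSol ν e σ s T V) : ∀ t ∈ Ico 0 T, Rap (V t) := by
  intro t ht m
  obtain ⟨M, hM⟩ := h.rap m t ht.2
  exact ⟨M, hM t ⟨ht.1, le_rfl⟩⟩

lemma lp_smul_left (A : ℝ) (V W : Fam) : lp (fun k => A • V k) W = A * lp V W := by
  unfold lp
  have h : ∀ k : Z3, ‖vec k‖ ^ 2 * inner ℝ (A • V k) (W k) =
      A * (‖vec k‖ ^ 2 * inner ℝ (V k) (W k)) := fun k => by
    rw [real_inner_smul_left]; ring
  rw [tsum_congr h, tsum_mul_left]
  ring

lemma lp_dil {N : ℕ} (hN : 0 < N)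
    (hnorm : ∀ k : Z3, ‖vec (fun i => (N : ℤ) * k i)‖ = N * ‖vec k‖)
    (hdv : ∀ k, Dv N k → ∃ l : Z3, k = fun i => (N : ℤ) * l i)
    (hres : ∀ V, res N (dil N V) = V)
    (h0 : ∀ V k, ¬ Dv N k → dil N V k = 0) (V W : Fam) :
    lp (dil N V) (dil N W) = (N : ℝ) ^ 2 * lp V W := by
  unfold lp
  have hinj : Function.Injective (fun (k : Z3) (i : Fin 3) => (N : ℤ) * k i) := by
    intro k l h
    funext i
    have h1 := congrFun h i
    simp only at h1
    have hN' : (N : ℤ) ≠ 0 := by exact_mod_cast hN.ne'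
    exact mul_left_cancel₀ hN' h1
  have hsupp : Function.support (fun k : Z3 => ‖vec k‖ ^ 2 *
      inner ℝ (dil N V k) (dil N W k)) ⊆
      Set.range (fun (k : Z3) (i : Fin 3) => (N : ℤ) * k i) := by
    intro k hk
    by_contra hno
    apply hk
    have h1 : ¬ Dv N k := by
      intro h2
      obtain ⟨l, rfl⟩ := hdv k h2
      exact hno ⟨l, rfl⟩
    show ‖vec k‖ ^ 2 * inner ℝ (dil N V k) (dil N W k) = 0
    rw [h0 V k h1, inner_zero_left, mul_zero]
  rw [← hinj.tsum_eq hsupp]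
  have h : ∀ k : Z3, ‖vec (fun i => (N : ℤ) * k i)‖ ^ 2 *
      inner ℝ (dil N V (fun i => (N : ℤ) * k i)) (dil N W (fun i => (N : ℤ) * k i)) =
      (N : ℝ) ^ 2 * (‖vec k‖ ^ 2 * inner ℝ (V k) (W k)) := by
    intro k
    have h1 : dil N V (fun i => (N : ℤ) * k i) = V k := congrFun (hres V) k
    have h2 : dil N W (fun i => (N : ℤ) * k i) = W k := congrFun (hres W) k
    rw [h1, h2, hnorm]
    ring
  rw [tsum_congr h, tsum_mul_left]
  ring

lemma hf_dil {N : ℕ} (hN : 0 < N)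
    (hnorm : ∀ k : Z3, ‖vec (fun i => (N : ℤ) * k i)‖ = N * ‖vec k‖)
    (hdv : ∀ k, Dv N k → ∃ l : Z3, k = fun i => (N : ℤ) * l i)
    (hres : ∀ V, res N (dil N V) = V)
    (h0 : ∀ V k, ¬ Dv N k → dil N V k = 0) (K : ℝ) (V : Fam) :
    hf K (dil N V) = hf (K / N) V := by
  unfold hf
  have hN0 : (0 : ℝ) < N := by exact_mod_cast hN
  have hinj : Function.Injective (fun (k : Z3) (i : Fin 3) => (N : ℤ) * k i) := by
    intro k l h
    funext i
    have h1 := congrFun h i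
    simp only at h1
    have hN' : (N : ℤ) ≠ 0 := by exact_mod_cast hN.ne'
    exact mul_left_cancel₀ hN' h1
  have hsupp : Function.support (fun k : Z3 => if K ≤ ‖vec k‖ then ‖dil N V k‖ ^ 2 else 0) ⊆
      Set.range (fun (k : Z3) (i : Fin 3) => (N : ℤ) * k i) := by
    intro k hk
    by_contra hno
    apply hk
    have h1 : ¬ Dv N k := by
      intro h2
      obtain ⟨l, rfl⟩ := hdv k h2
      exact hno ⟨l, rfl⟩
    show (if K ≤ ‖vec k‖ then ‖dil N V k‖ ^ 2 else 0) = 0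
    rw [h0 V k h1]
    simp
  rw [← hinj.tsum_eq hsupp]
  refine tsum_congr fun k => ?_
  have h1 : dil N V (fun i => (N : ℤ) * k i) = V k := congrFun (hres V) k
  rw [h1, hnorm]
  have h2 : (K ≤ (N : ℝ) * ‖vec k‖) = (K / N ≤ ‖vec k‖) := by
    rw [div_le_iff₀ hN0, mul_comm]
  simp only [h2]

lemma hf_smul (A K : ℝ) (V : Fam) : hf K (fun k => A • V k) = A ^ 2 * hf K V := by
  unfold hf
  rw [← tsum_mul_left]
  refine tsum_congr fun k => ?_
  split_ifs
  · rw [norm_smul, mul_pow, Real.norm_eq_abs, sq_abs]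
  · rw [mul_zero]

theorem t_ASM7 : S_ASM7 := by
  intro hF1 hF hFB hEXS hUNI hDIL hCMP hOBC hORDD ν ε δ hν hε hδ
  obtain ⟨J, g, L, M, e, σ, s, T, V, h, hσ, hs, hO2, hT, hV, ⟨R₀, hR₀⟩, hbl, ⟨X₀, hX₀⟩,
    ⟨X₁, hX₁⟩⟩ := hEXS ν hν
  obtain ⟨N, hN, h5⟩ := hORDD hF hDIL hCMP J g L M e σ s ε δ hε hδ h hO2
  obtain ⟨d1, d2, d3, d4, d5, d6, d7, d8, d9, d10, d11, d12, d13, d14, d15, d16, d17, d18, d19⟩ :=
    hDIL N hN
  obtain ⟨c1, c2, c3, c4, c5, c6, c7, c8⟩ := hCMP N hN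
  have hOB := hOBC J g L M e N hN h
  obtain ⟨⟨hip, hcnv, hdir⟩, hcf⟩ := hF
  have hN0 : (0:ℝ) < N := by exact_mod_cast hN
  set A : ℝ := (N : ℝ) with hA
  set c : ℝ := (N : ℝ) ^ 2 with hc
  have hA0 : 0 < A := hN0
  have hc0 : 0 < c := pow_pos hN0 2
  have hAN : A * N = c := by rw [hA, hc]; ring
  set T₁ : ℝ := T / c with hT₁
  have hT₁0 : 0 < T₁ := div_pos hT hc0
  have hmem : ∀ t ∈ Ico 0 T₁, c * t ∈ Ico 0 T := by
    intro t ht
    refine ⟨mul_nonneg hc0.le ht.1, ?_⟩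
    have := ht.2
    rw [hT₁, lt_div_iff₀ hc0] at this
    linarith
  set U : ℝ → Fam := fun t k => A • dil N (V (c * t)) k with hU'
  have hrapV := fsol_rap hV
  -- the fk part is orthogonal
  have hfk0 : ∀ (p : Kx N) k, Dv N k → fk N p k = 0 := by
    intro p k hk
    by_contra hne
    exact (c2 p k hne).1 hk
  have hpinl : ∀ t (a : Ix J), pair (U t) (dil N (e a)) = A * pair (V (c * t)) (e a) := by
    intro t a
    rw [hU']
    simp only
    rw [pair_smul_left, d15]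
  have hpinr : ∀ t (p : Kx N), pair (U t) (fk N p) = 0 := by
    intro t p
    rw [hU']
    simp only
    rw [pair_smul_left, d18 _ _ (hfk0 p), mul_zero]
  have hlinl : ∀ t (a : Ix J), lp (U t) (dil N (e a)) = A * (c * lp (V (c * t)) (e a)) := by
    intro t a
    rw [hU']
    simp only
    rw [lp_smul_left, lp_dil hN d10 d2 d7 d9]
  have hlinr : ∀ t (p : Kx N), lp (U t) (fk N p) = 0 := by
    intro t p
    unfold lp
    have h1 : ∀ k : Z3, ‖vec k‖ ^ 2 * inner ℝ (U t k) (fk N p k) = 0 := by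
      intro k
      by_cases hk : Dv N k
      · rw [hfk0 p k hk, inner_zero_right, mul_zero]
      · show ‖vec k‖ ^ 2 * inner ℝ (A • dil N (V (c * t)) k) (fk N p k) = 0
        rw [d9 _ k hk, smul_zero, inner_zero_left, mul_zero]
    rw [tsum_congr h1, tsum_zero, mul_zero]
  have hbinl : ∀ t (a : Ix J), bil (U t) (U t) (dil N (e a)) =
      A * c * bil (V (c * t)) (V (c * t)) (e a) := by
    intro t a
    rw [hU']
    simp only
    rw [bil_smul, d16]
    calc A ^ 2 * (↑N * bil (V (c * t)) (V (c * t)) (e a)) =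
        A * (A * N) * bil (V (c * t)) (V (c * t)) (e a) := by ring
      _ = _ := by rw [hAN]
  have hbinr : ∀ t (p : Kx N), bil (U t) (U t) (fk N p) = 0 := by
    intro t p
    rw [hU']
    simp only
    rw [bil_smul, d17 _ _ _ (hfk0 p), mul_zero]
  -- time scaling
  have hscale : ∀ {f : ℝ → ℝ} {f' t : ℝ}, t ∈ Ico 0 T₁ →
      HasDerivWithinAt f f' (Ico 0 T) (c * t) →
      HasDerivWithinAt (fun τ => f (c * τ)) (f' * c) (Ico 0 T₁) t := by
    intro f f' t ht hf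
    have h1 : HasDerivWithinAt (fun τ : ℝ => c * τ) c (Ico 0 T₁) t := by
      have := ((hasDerivAt_id t).const_mul c).hasDerivWithinAt (s := Ico 0 T₁)
      simpa using this
    exact HasDerivWithinAt.comp t hf h1 (fun τ hτ => hmem τ hτ)
  have hUsol : FSol ν (eC N e) (σC N σ) (sC N s) T₁ U := by
    refine ⟨fun t ht => ?_, fun m T' hT' => ?_, fun i t ht => ?_⟩
    · exact ot_smul A (d3 _ (hV.ot _ (hmem t ht)))
    · have hcT' : c * T' < T := by
        rw [hT₁, lt_div_iff₀ hc0] at hT'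
        linarith
      obtain ⟨Mm, hMm⟩ := hV.rap m (c * T') hcT'
      refine ⟨A * ((N:ℝ) ^ m * max Mm 0), fun t ht k => ?_⟩
      have ht' : c * t ∈ Icc 0 (c * T') :=
        ⟨mul_nonneg hc0.le ht.1, mul_le_mul_of_nonneg_left ht.2 hc0.le⟩
      have h1 := dil_norm hN d10 d2 d7 d9 (V (c * t)) m (max Mm 0) (le_max_right _ _)
        (fun k => (hMm _ ht' k).trans (le_max_left _ _)) k
      show ‖vec k‖ ^ m * ‖A • dil N (V (c * t)) k‖ ≤ _
      rw [norm_smul, Real.norm_eq_abs, abs_of_pos hA0]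
      calc ‖vec k‖ ^ m * (A * ‖dil N (V (c * t)) k‖) = A * (‖vec k‖ ^ m * ‖dil N (V (c * t)) k‖) := by
            ring
        _ ≤ _ := mul_le_mul_of_nonneg_left h1 hA0.le
    · rcases i with a | p
      · show HasDerivWithinAt (fun τ => pair (U τ) (dil N (e a)))
          ((((N : ℝ) ^ 2) * s a) * pair (U t) (dil N (e (σ a))) - ν * lp (U t) (dil N (e a)) +
            bil (U t) (U t) (dil N (e a))) (Ico 0 T₁) t
        have h1 := hscale ht (hV.eqn a (c * t) (hmem t ht))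
        have h2 := h1.const_mul A
        have h3 : HasDerivWithinAt (fun τ => pair (U τ) (dil N (e a)))
            (A * ((s a * pair (V (c * t)) (e (σ a)) - ν * lp (V (c * t)) (e a) +
              bil (V (c * t)) (V (c * t)) (e a)) * c))
            (Ico 0 T₁) t :=
          h2.congr (fun τ _ => hpinl τ a) (hpinl t a)
        refine h3.congr_deriv ?_
        rw [hpinl, hlinl, hbinl, ← hc]
        ring
      · show HasDerivWithinAt (fun τ => pair (U τ) (fk N p))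
          ((0:ℝ) * pair (U t) (fk N p) - ν * lp (U t) (fk N p) +
            bil (U t) (U t) (fk N p)) (Ico 0 T₁) t
        rw [hpinr, hlinr, hbinr, mul_zero, mul_zero, sub_zero, add_zero]
        exact (hasDerivWithinAt_const t (Ico 0 T₁) (0:ℝ)).congr (fun τ _ => hpinr τ p) (hpinr t p)
  have hUrap := fsol_rap hUsol
  have heot : ∀ i, OT (eC N e i) := hOB.ot
  have hefin : ∀ i, ∃ R, ∀ k, eC N e i k ≠ 0 → ‖vec k‖ ≤ R := fun i => ⟨_, fun k hk => (hOB.fsupp i k hk).2⟩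
  have hefs : ∀ i, {k | eC N e i k ≠ 0}.Finite := by
    intro i
    obtain ⟨R, hR⟩ := hefin i
    exact (Pool.Agent.Y275.ND.finite_ball R).subset (fun k hk => hR k hk)
  have herap : ∀ i, Rap (eC N e i) := by
    intro i m
    have hb : ((fun k => ‖vec k‖ ^ m * ‖eC N e i k‖) '' {k | eC N e i k ≠ 0}).Finite :=
      (hefs i).image _
    obtain ⟨B, hB⟩ := hb.bddAbove
    refine ⟨max B 0, fun k => ?_⟩
    by_cases hk : eC N e i k = 0
    · rw [hk, norm_zero, mul_zero]; exact le_max_right _ _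
    · exact (hB ⟨k, hk, rfl⟩).trans (le_max_left _ _)
  have hipU : ∀ t ∈ Ico 0 T₁, ∀ i, ip (fieldOf (U t)) (fieldOf (eC N e i)) =
      pair (U t) (eC N e i) := fun t ht i => hip _ _ (hUsol.ot t ht) (hUrap t ht) (heot i) (herap i)
  have hfield : ∀ t y, fieldOf (U t) y = A • fieldOf (V (c * t)) ((N : ℝ) • y) := by
    intro t y
    rw [hU']
    simp only
    rw [fieldOf_smul, d19]
  -- blow-up
  have hblU : ∀ R : ℝ, ∃ t ∈ Ico 0 T₁, ∃ y, R < ‖fieldOf (U t) y‖ := by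
    intro R
    obtain ⟨t, ht, y, hy⟩ := hbl (R / A)
    refine ⟨t / c, ⟨div_nonneg ht.1 hc0.le, ?_⟩, (N:ℝ)⁻¹ • y, ?_⟩
    · rw [hT₁]
      exact div_lt_div_of_pos_right ht.2 hc0
    · rw [hfield, mul_div_cancel₀ t hc0.ne', smul_smul, mul_inv_cancel₀ hN0.ne', one_smul,
        norm_smul, Real.norm_eq_abs, abs_of_pos hA0]
      rw [div_lt_iff₀ hA0] at hy
      linarith
  have hσC : ∀ i, σC N σ (σC N σ i) = i := by
    rintro (a | p)
    · show Sum.inl (σ (σ a)) = Sum.inl a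
      rw [hσ]
    · rfl
  have hsC : ∀ i, sC N s (σC N σ i) = -sC N s i := by
    rintro (a | p)
    · show (N : ℝ) ^ 2 * s (σ a) = -((N : ℝ) ^ 2 * s a)
      rw [hs]; ring
    · show (0:ℝ) = -0
      rw [neg_zero]
  have hU2 := fun T' => hUNI (Ix J ⊕ Kx N) _ (eC N e) (σC N σ) (sC N s) ν T' hOB hσC hsC hν.le
  refine ⟨Ix J ⊕ Kx N, fun i => fieldOf (eC N e i), σC N σ, sC N s, T₁, fun t => fieldOf (U t),
    ?_, h5, hT₁0, ?_, ?_, ?_, ?_, hblU, ⟨X₀, ?_⟩, (N : ℝ) ^ 3 * X₁, ?_⟩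
  · -- Skew
    refine ⟨fun i => ⟨eC N e i, heot i, hefs i, rfl⟩, fun i j => ?_, ?_, hσC, hsC⟩
    · rw [hip _ _ (heot i) (herap i) (heot j) (herap j)]
      exact hOB.orth i j
    · rintro v ⟨W, hW, hWr, rfl⟩ hv y
      have h0 : ∀ k, W k = 0 := by
        intro k
        have h1 := hOB.exp W hW hWr k
        have h2 : (fun a => pair W (eC N e a) • eC N e a k) = fun _ => (0 : E3) := by
          funext a
          rw [← hip _ _ hW hWr (heot a) (herap a), hv a, zero_smul]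
        rw [h2] at h1
        exact h1.unique hasSum_zero
      unfold fieldOf
      rw [← tsum_zero (α := E3) (β := Z3)]
      apply tsum_congr
      intro k
      rw [h0 k, smul_zero]
  · -- SolN
    refine ⟨⟨U, fun t ht => ⟨hUsol.ot t ht, rfl⟩, hUsol.rap⟩, ?_⟩
    intro i t ht
    have h1 := hUsol.eqn i t ht
    have h2 : HasDerivWithinAt (fun τ => ip (fieldOf (U τ)) (fieldOf (eC N e i)))
        (sC N s i * pair (U t) (eC N e (σC N σ i)) - ν * lp (U t) (eC N e i) +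
          bil (U t) (U t) (eC N e i))
        (Ico 0 T₁) t := h1.congr (fun τ hτ => hipU τ hτ i) (hipU t ht i)
    refine h2.congr_deriv ?_
    rw [hipU t ht (σC N σ i), hcnv _ _ (hUsol.ot t ht) (hUrap t ht) (heot i) (herap i),
      hFB _ _ (hUsol.ot t ht) (hUrap t ht) (heot i) (herap i)]
    unfold lp
    ring
  · -- initial datum
    have h0 : (0:ℝ) ∈ Ico 0 T₁ := ⟨le_rfl, hT₁0⟩
    refine ⟨U 0, hUsol.ot 0 h0, ⟨N * R₀, fun k hk => ?_⟩, rfl⟩
    have h1 : dil N (V (c * 0)) k ≠ 0 := by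
      intro h1
      apply hk
      show A • dil N (V (c * 0)) k = 0
      rw [h1, smul_zero]
    have h2 : Dv N k := by
      by_contra h3
      exact h1 (d9 _ k h3)
    obtain ⟨l, rfl⟩ := d2 k h2
    have h3 : dil N (V (c * 0)) (fun i => (N : ℤ) * l i) = V (c * 0) l := congrFun (d7 _) l
    rw [h3, mul_zero] at h1
    rw [d10]
    exact mul_le_mul_of_nonneg_left (hR₀ l h1) hN0.le
  · -- uniqueness
    intro T' v hT' hv hv0
    obtain ⟨V', hV', hV'b⟩ := hv.reg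
    have hrap : ∀ t ∈ Ico 0 T', Rap (V' t) := by
      intro t ht m
      obtain ⟨Mb, hMb⟩ := hV'b m t ht.2
      exact ⟨Mb, hMb t ⟨ht.1, le_rfl⟩⟩
    have hipv : ∀ t ∈ Ico 0 T', ∀ i, ip (v t) (fieldOf (eC N e i)) = pair (V' t) (eC N e i) := by
      intro t ht i
      rw [(hV' t ht).2, hip _ _ (hV' t ht).1 (hrap t ht) (heot i) (herap i)]
    have hVsol : FSol ν (eC N e) (σC N σ) (sC N s) T' V' := by
      refine ⟨fun t ht => (hV' t ht).1, hV'b, fun i t ht => ?_⟩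
      have h1 := hv.eqn i t ht
      have h2 : HasDerivWithinAt (fun τ => pair (V' τ) (eC N e i))
          (sC N s i * ip (v t) (fieldOf (eC N e (σC N σ i))) -
            ν * dirb (v t) (fieldOf (eC N e i)) -
            cnv (v t) (fieldOf (eC N e i))) (Ico 0 T') t :=
        h1.congr (fun τ hτ => (hipv τ hτ i).symm) (hipv t ht i).symm
      refine h2.congr_deriv ?_
      rw [hipv t ht (σC N σ i), (hV' t ht).2,
        hcnv _ _ (hV' t ht).1 (hrap t ht) (heot i) (herap i),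
        hFB _ _ (hV' t ht).1 (hrap t ht) (heot i) (herap i)]
      unfold lp
      ring
    have h0' : (0:ℝ) ∈ Ico 0 T' := ⟨le_rfl, hT'⟩
    have h0 : (0:ℝ) ∈ Ico 0 T₁ := ⟨le_rfl, hT₁0⟩
    have hinit : ∀ k, V' 0 k = U 0 k := by
      intro k
      rw [← hcf _ (hV' 0 h0').1 (hrap 0 h0') k, ← hcf _ (hUsol.ot 0 h0) (hUrap 0 h0) k,
        ← (hV' 0 h0').2, hv0]
    have heq : ∀ t ∈ Ico 0 (min T' T₁), ∀ k, V' t k = U t k :=
      (hU2 (min T' T₁)).1 V' U (fsol_mono hVsol (min_le_left _ _))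
        (fsol_mono hUsol (min_le_right _ _)) hinit
    have hle : T' ≤ T₁ := by
      by_contra hlt
      push Not at hlt
      obtain ⟨M0, hM0⟩ := hV'b 0 T₁ hlt
      obtain ⟨M6, hM6⟩ := hV'b 6 T₁ hlt
      obtain ⟨t, ht, y, hy⟩ := hblU (∑' k : Z3, 2 ^ 6 * (M0 + M6) * ((1 + |(k 0 : ℝ)|)⁻¹ ^ 2 *
        ((1 + |(k 1 : ℝ)|)⁻¹ ^ 2 * (1 + |(k 2 : ℝ)|)⁻¹ ^ 2)))
      have ht' : t ∈ Icc 0 T₁ := ⟨ht.1, ht.2.le⟩
      obtain ⟨s1, s2⟩ := l1_of_bdd (hM0 t ht') (hM6 t ht')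
      have h1 : V' t = U t := funext (heq t ⟨ht.1, by rw [min_eq_right hlt.le]; exact ht.2⟩)
      rw [← h1] at hy
      have h2 := Pool.Agent.Y274.NE.field_le (V' t) s1 y
      linarith
    refine ⟨hle, fun t ht => ?_⟩
    rw [(hV' t ht).2]
    have h1 : V' t = U t := funext (heq t ⟨ht.1, by rw [min_eq_left hle]; exact ht.2⟩)
    rw [h1]
  · -- energy identity
    intro t ht
    have h1 := (hU2 T₁).2 U hUsol t ht
    have h2 : HasDerivWithinAt (fun τ => ip (fieldOf (U τ)) (fieldOf (U τ)))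
        (-(2 * (ν * lp (U t) (U t)))) (Ico 0 T₁) t :=
      h1.congr (fun τ hτ => hip _ _ (hUsol.ot τ hτ) (hUrap τ hτ) (hUsol.ot τ hτ) (hUrap τ hτ))
        (hip _ _ (hUsol.ot t ht) (hUrap t ht) (hUsol.ot t ht) (hUrap t ht))
    refine h2.congr_deriv ?_
    rw [hdir _ (hUsol.ot t ht) (hUrap t ht)]
    unfold lp
    have h3 : ∀ k : Z3, ‖vec k‖ ^ 2 * inner ℝ (U t k) (U t k) = ‖vec k‖ ^ 2 * ‖U t k‖ ^ 2 :=
      fun k => by rw [real_inner_self_eq_norm_sq]
    rw [tsum_congr h3]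
  · -- the rate
    intro t ht y
    have h1 := hX₀ (c * t) (hmem t ht) ((N : ℝ) • y)
    have h2 : √(T₁ - t) * A = √(T - c * t) := by
      have h3 : T - c * t = (T₁ - t) * A ^ 2 := by
        rw [hT₁, sub_mul, hA, ← hc, div_mul_cancel₀ T hc0.ne']
        ring
      rw [h3, Real.sqrt_mul (by linarith [ht.2]), Real.sqrt_sq hA0.le]
    show ‖fieldOf (U t) y‖ * √(T₁ - t) ≤ X₀
    rw [hfield, norm_smul, Real.norm_eq_abs, abs_of_pos hA0]
    calc A * ‖fieldOf (V (c * t)) ((N : ℝ) • y)‖ * √(T₁ - t) =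
        ‖fieldOf (V (c * t)) ((N : ℝ) • y)‖ * (√(T₁ - t) * A) := by ring
      _ = ‖fieldOf (V (c * t)) ((N : ℝ) • y)‖ * √(T - c * t) := by rw [h2]
      _ ≤ X₀ := h1
  · -- the critical norm
    intro t ht K hK
    show K * hf K (cf (fieldOf (U t))) ≤ (N : ℝ) ^ 3 * X₁
    rw [show cf (fieldOf (U t)) = U t from funext (hcf _ (hUsol.ot t ht) (hUrap t ht))]
    have h1 := hX₁ (c * t) (hmem t ht) (K / N) (div_pos hK hN0)
    have h2 : hf K (U t) = A ^ 2 * hf (K / N) (V (c * t)) := by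
      rw [hU']
      simp only
      rw [hf_smul, hf_dil hN d10 d2 d7 d9]
    rw [h2, hA]
    calc K * ((N : ℝ) ^ 2 * hf (K / N) (V (c * t))) =
        (N : ℝ) ^ 3 * (K / N * hf (K / N) (V (c * t))) := by
          field_simp
      _ ≤ (N : ℝ) ^ 3 * X₁ := mul_le_mul_of_nonneg_left h1 (by positivity)

end Pool.Agent.Y5.S2
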