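import Pool.Agent.Y5.S2.Stm2
import Pool.Agent.Y5.E.Blow
import Pool.Agent.Y274.NE.B4

/-! The critical Besov norm `B^(1/2)_(2,∞)` stays bounded. -/

open Set Filter Topology MeasureTheory

set_option autoImplicit false

namespace Pool.Agent.Y5.S2

open Pool.Agent.Y5 Pool.Agent.Y5.D Pool.Agent.Y5.E Pool.Agent.Y5.F Pool.Agent.Y274.NE
open Pool.Agent.Y5.E.Bl (wz_sq summ_groups group_le)
open Pool.Agent.Y275.ND (syn)

section

variable {J : Type} {g : J → ℕ}

/-- the energy of the groups `p, p + 1, …` -/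
lemma sum_tail_le (z : Ix J → ℝ → ℝ) (t : ℝ) (hs : Summable fun a => z a t ^ 2) (p : ℕ) :
    ∑' a, (if p ≤ gr g a then z a t ^ 2 else 0) ≤
      Yt (fun n => z (Sum.inl n)) (wz g z) p t := by
  classical
  have hes := summ_groups g z t hs
  have hes' : Summable fun k => z (Sum.inl (p + k)) t ^ 2 + wz g z (p + k) t ^ 2 :=
    hes.comp_injective (add_right_injective p)
  apply Real.tsum_le_of_sum_le
  · intro a
    show 0 ≤ if p ≤ gr g a then z a t ^ 2 else 0
    split_ifs
    · positivity
    · exact le_rfl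
  intro I
  rw [← Finset.sum_filter]
  obtain ⟨N, hN⟩ : ∃ N : ℕ, ∀ a ∈ I, gr g a < p + N := by
    refine ⟨I.sup (gr g) + 1, fun a ha => ?_⟩
    have := Finset.le_sup (f := gr g) ha
    omega
  have hmaps : ∀ a ∈ I.filter (fun a => p ≤ gr g a), gr g a ∈ Finset.Ico p (p + N) := by
    intro a ha
    rw [Finset.mem_filter] at ha
    exact Finset.mem_Ico.2 ⟨ha.2, hN a ha.1⟩
  rw [← Finset.sum_fiberwise_of_maps_to hmaps]
  have h1 : ∀ n ∈ Finset.Ico p (p + N),
      ∑ a ∈ (I.filter (fun a => p ≤ gr g a)).filter (fun a => gr g a = n), z a t ^ 2 ≤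
        z (Sum.inl n) t ^ 2 + wz g z n t ^ 2 := fun n _ => group_le g z t hs _ n
  refine (Finset.sum_le_sum h1).trans ?_
  rw [Finset.sum_Ico_eq_sum_range]
  simp only [add_tsub_cancel_left]
  exact hes'.sum_le_tsum _ (fun k _ => by positivity)

end

theorem t_BES6 (hBS : S_BS6) : S_BES6 := by
  intro J g σ τ ν κ μ lam Λ M A F L C ℓ N G B e hA hc hS hK T z hreg hti
  classical
  obtain ⟨M', h⟩ := hBS J g σ τ ν κ μ lam Λ M A F L C ℓ N G B e hA hc hS hK
  obtain ⟨C₀, hC₀⟩ := hti
  obtain ⟨D, hD, hκF⟩ := hc.κF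
  have hκ0 := hS.κ0
  have hL1 : ∀ n, 1 ≤ L n := h.L1
  refine ⟨A ^ 2 * (C₀ ^ 2 * D), fun t ht K hK0 => ?_⟩
  -- decay of the coefficients
  have hrapz : ∀ p : ℕ, ∃ Cp, ∀ a, L (gr g a) ^ p * |A * z a t| ≤ Cp := by
    intro k
    obtain ⟨Mk, hMk⟩ := hreg k t ht.2
    refine ⟨A * √Mk, fun a => ?_⟩
    obtain ⟨h1, h2⟩ := hMk t ⟨ht.1, le_rfl⟩
    have h3 := h1.le_tsum a (fun _ _ => sq_nonneg _)
    have h4 : (L (gr g a) ^ k * z a t) ^ 2 ≤ Mk := h3.trans h2
    have h5 := Real.abs_le_sqrt h4
    rw [abs_mul, abs_of_nonneg (pow_nonneg (by linarith [hL1 (gr g a)]) k)] at h5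
    rw [abs_mul, abs_of_pos hA]
    calc L (gr g a) ^ k * (A * |z a t|) = A * (L (gr g a) ^ k * |z a t|) := by ring
      _ ≤ A * √Mk := mul_le_mul_of_nonneg_left h5 hA.le
  have hsq : Summable fun a => z a t ^ 2 := by
    obtain ⟨M0, hM0⟩ := hreg 0 t ht.2
    have h1 := (hM0 t ⟨ht.1, le_rfl⟩).1
    simpa [Sk] using h1
  have hYt0 : ∀ p, 0 ≤ Yt (fun n => z (Sum.inl n)) (wz g z) p t := fun p =>
    tsum_nonneg fun k => by positivity
  -- bound of the tail energies
  have hY : ∀ p, Yt (fun n => z (Sum.inl n)) (wz g z) p t ≤ C₀ ^ 2 * κ ^ (2 * p) := by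
    intro p
    have h1 := hC₀ t ht p
    have h2 := Real.sqrt_nonneg (Yt (fun n => z (Sum.inl n)) (wz g z) p t)
    have h3 : 0 ≤ κ ^ p * L p * (T - t) := by
      have h4 := hL1 p
      have h5 : 0 ≤ T - t := by linarith [ht.2]
      have h6 := pow_pos hκ0 p
      positivity
    have h4 : √(Yt (fun n => z (Sum.inl n)) (wz g z) p t) ≤ C₀ * κ ^ p := by nlinarith
    calc Yt (fun n => z (Sum.inl n)) (wz g z) p t =
        √(Yt (fun n => z (Sum.inl n)) (wz g z) p t) ^ 2 := (Real.sq_sqrt (hYt0 p)).symm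
      _ ≤ (C₀ * κ ^ p) ^ 2 := pow_le_pow_left₀ h2 h4 2
      _ = C₀ ^ 2 * κ ^ (2 * p) := by rw [mul_pow, ← pow_mul, mul_comm p 2]
  by_cases hp : ∃ p, K ≤ F p
  · -- `p` minimal with `K ≤ F p`
    set p := Nat.find hp with hpdef
    have hKp : K ≤ F p := Nat.find_spec hp
    have hmin : ∀ q, q < p → F q < K := fun q hq => lt_of_not_ge (Nat.find_min hp hq)
    set yp : Ix J → ℝ := fun a => if p ≤ gr g a then A * z a t else 0 with hyp
    have hgood : Summable (fun a => |yp a| * M' (gr g a)) := by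
      refine good_of_rap h (fun q => ?_)
      obtain ⟨Cp, hCp⟩ := hrapz q
      refine ⟨Cp, fun a => ?_⟩
      rw [hyp]
      simp only
      split_ifs
      · exact hCp a
      · rw [abs_zero, mul_zero]
        exact le_trans (mul_nonneg (pow_nonneg (by linarith [hL1 (gr g a)]) q) (abs_nonneg _))
          (hCp a)
    have h1 : ∀ k, K ≤ ‖vec k‖ → sy e (fun a => A * z a t) k = syn e yp k := by
      intro k hk
      unfold sy syn
      refine tsum_congr fun a => ?_
      rw [hyp]
      simp only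
      split_ifs with h2
      · rfl
      · have h3 : e a k = 0 := by
          by_contra h4
          have h5 := (hc.fsupp a k h4).2
          have h6 := hmin (gr g a) (by omega)
          linarith
        rw [h3, smul_zero, smul_zero]
    have h2 : hf K (sy e (fun a => A * z a t)) ≤ ∑' k, ‖syn e yp k‖ ^ 2 := by
      unfold hf
      refine Summable.tsum_le_tsum (fun k => ?_) ?_ (syn_sq_summable h hgood)
      · split_ifs with h3
        · rw [h1 k h3]
        · positivity
      · refine Summable.of_nonneg_of_le (fun k => ?_) (fun k => ?_) (syn_sq_summable h hgood)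
        · split_ifs
          · positivity
          · exact le_rfl
        · split_ifs with h3
          · rw [h1 k h3]
          · positivity
    have h3 : ∑' k, ‖syn e yp k‖ ^ 2 = ∑' a, yp a ^ 2 := by
      rw [← pair_self h hgood]
      unfold pair
      exact tsum_congr fun k => (real_inner_self_eq_norm_sq _).symm
    have h4 : ∑' a, yp a ^ 2 = A ^ 2 * ∑' a, (if p ≤ gr g a then z a t ^ 2 else 0) := by
      rw [← tsum_mul_left]
      refine tsum_congr fun a => ?_
      rw [hyp]
      simp only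
      split_ifs
      · ring
      · ring
    have h5 := sum_tail_le (g := g) z t hsq p
    have h6 := hY p
    have hhf0 : 0 ≤ hf K (sy e (fun a => A * z a t)) := by
      unfold hf
      refine tsum_nonneg fun k => ?_
      split_ifs
      · positivity
      · exact le_rfl
    have h7 : hf K (sy e (fun a => A * z a t)) ≤ A ^ 2 * (C₀ ^ 2 * κ ^ (2 * p)) := by
      rw [h3, h4] at h2
      exact h2.trans (mul_le_mul_of_nonneg_left (h5.trans h6) (by positivity))
    have hF0 : 0 ≤ F p := by linarith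
    calc K * hf K (sy e (fun a => A * z a t)) ≤ F p * (A ^ 2 * (C₀ ^ 2 * κ ^ (2 * p))) :=
          mul_le_mul hKp h7 hhf0 hF0
      _ = A ^ 2 * (C₀ ^ 2 * (κ ^ (2 * p) * F p)) := by ring
      _ ≤ A ^ 2 * (C₀ ^ 2 * D) := by
          refine mul_le_mul_of_nonneg_left (mul_le_mul_of_nonneg_left (hκF p) ?_) ?_ <;> positivity
  · push Not at hp
    have h1 : hf K (sy e (fun a => A * z a t)) = 0 := by
      unfold hf
      have h2 : ∀ k : Z3, (if K ≤ ‖vec k‖ then ‖sy e (fun a => A * z a t) k‖ ^ 2 else 0) = 0 := by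
        intro k
        split_ifs with h3
        · have h4 : sy e (fun a => A * z a t) k = 0 := by
            unfold sy
            have h5 : ∀ a, (A * z a t) • e a k = 0 := by
              intro a
              have h6 : e a k = 0 := by
                by_contra h4
                have h5 := (hc.fsupp a k h4).2
                have h6 := hp (gr g a)
                linarith
              rw [h6, smul_zero]
            simp [h5]
          rw [h4]
          simp
        · rfl
      simp only [h2, tsum_zero]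
    rw [h1, mul_zero]
    positivity

end Pool.Agent.Y5.S2
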