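import Pool.Agent.Y5.S2.Stm2

/-! Blow-up in terms of the coefficients (assembly of the concrete part). -/

open Set Filter Topology MeasureTheory

set_option autoImplicit false

namespace Pool.Agent.Y5.S2

open Pool.Agent.Y5 Pool.Agent.Y5.D Pool.Agent.Y5.E Pool.Agent.Y5.F
open Pool.Agent.Y6.N (lin Dm Skew SolN S_FLDB)
open Pool.Agent.Y5.G (OB)
open Pool.Agent.Y274.NE (Bs)

theorem sy_single {J : Type} (e : Ix J → Fam) (y : Ix J → ℝ) (a : Ix J)
    (h : ∀ b, b ≠ a → y b = 0) : sy e y = fun k => y a • e a k := by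
  funext k
  unfold sy
  exact tsum_eq_single a (fun b hb => by rw [h b hb, zero_smul])

theorem exs_of (hB : S_BLOW6) (hC : S_CONC6) (hL : S_LAP6) (hBS : S_BS6) (hE : S_EX6)
    (hV : S_VEL6) (hSup : S_SUP6) (hBes : S_BES6) (hO : S_ORD6) (hF : S_FLD) : S_EXS := by
  intro ν hν
  obtain ⟨J, g, σ, τ, κ, μ, lam, Λ, M, A, F, L, C, ℓ, N, G, B, e, hA, hc, hs, hk⟩ := hC ν hν
  obtain ⟨a, D₁, ha, hD⟩ := hL J g σ τ ν κ μ lam Λ M F L C ℓ N G B e hν hc hs
  obtain ⟨Q, T, z, hQ, hT, hz, hz0, hbl, hgr, hti⟩ := hB J g σ τ κ μ lam Λ M a D₁ L C ℓ B (Dm ν e)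
    (fun j a b => A * bil (e a) (e b) (e j)) hk hs hc.rot hD ha
  obtain ⟨M', hM'⟩ := hBS J g σ τ ν κ μ lam Λ M A F L C ℓ N G B e hA hc hs hk
  obtain ⟨hsol, hpr⟩ := hE J g σ τ ν κ μ lam Λ M A Q F L C ℓ N G B e hA hc hs hk T z hT hz
  refine ⟨J, g, L, M', e, σ2 σ, s2 Q κ L g τ, T, fun t => sy e (fun a => A * z a t), hM', ?_, ?_,
    hO hF J g σ τ ν κ μ lam Λ M A Q F L C ℓ N G B e hA hQ hc hs hk, hT, hsol, ?_, ?_,
    hSup J g σ τ ν κ μ lam Λ M A F L C ℓ N G B e hA hc hs hk T z hz.rapid hti,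
    hBes J g σ τ ν κ μ lam Λ M A F L C ℓ N G B e hA hc hs hk T z hz.rapid hti⟩
  · rintro (n | j)
    · rfl
    · simp [σ2, hc.rot.inv]
  · rintro (n | j)
    · simp [σ2, s2]
    · simp only [σ2, s2]
      rw [hc.rot.grp, hc.rot.skew]
      ring
  · refine ⟨F 0, fun k hk => ?_⟩
    have h1 : sy e (fun a => A * z a 0) = fun k => (A * z (Sum.inl 0) 0) • e (Sum.inl 0) k := by
      apply sy_single
      rintro (n | j) hb
      · cases n with
        | zero => exact absurd rfl hb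
        | succ n =>
          show A * z (Sum.inl (n + 1)) 0 = 0
          rw [hz0.2.1 n, mul_zero]
      · show A * z (Sum.inr j) 0 = 0
        rw [hz0.2.2 j, mul_zero]
    have h2 : e (Sum.inl 0) k ≠ 0 := by
      intro h
      apply hk
      show sy e (fun a => A * z a 0) k = 0
      rw [h1]
      simp [h]
    exact (hc.fsupp (Sum.inl 0) k h2).2
  · intro R
    exact hV J g σ τ ν κ μ lam Λ M A F L C ℓ N G B e hA hc hs hk T z hz.rapid hgr R

end Pool.Agent.Y5.S2
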