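import Pool.Agent.Y5.S2.Stm

/-!
# NS/S2 LAP6: the matrix of `-ν Δ` (from helper448's `Y448/S2/Lap6.lean`, with two new fields)
-/

open Set Filter Topology MeasureTheory

set_option autoImplicit false

namespace Pool.Agent.Y5.S2.Lap

open Pool.Agent.Y5 Pool.Agent.Y5.D Pool.Agent.Y5.E Pool.Agent.Y5.F Pool.Agent.Y5.S2
open Pool.Agent.Y6.N (lin Dm)

theorem abs_le_norm_vec (k : Z3) (i : Fin 3) : |(k i : ℝ)| ≤ ‖vec k‖ := by
  have h := PiLp.norm_apply_le (vec k) i
  simpa [vec] using h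

theorem finite_ball (R : ℝ) : {k : Z3 | ‖vec k‖ ≤ R}.Finite := by
  have hsub : ∀ k ∈ {k : Z3 | ‖vec k‖ ≤ R}, ∀ i : Fin 3, k i ∈ Set.Icc (-⌈R⌉) ⌈R⌉ := by
    intro k hk i
    have h1 := abs_le_norm_vec k i
    have h2 : |(k i : ℝ)| ≤ R := h1.trans hk
    have h3 : |(k i : ℝ)| ≤ (⌈R⌉ : ℝ) := h2.trans (Int.le_ceil R)
    rw [abs_le] at h3
    constructor
    · exact_mod_cast h3.1
    · exact_mod_cast h3.2
  exact (Set.Finite.pi' (fun _ : Fin 3 => Set.finite_Icc (-⌈R⌉) ⌈R⌉)).subset hsub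

/-- the lattice points in the ball -/
noncomputable def BB (R : ℝ) : Finset Z3 := (finite_ball R).toFinset

theorem mem_BB {R : ℝ} {k : Z3} : k ∈ BB R ↔ ‖vec k‖ ≤ R := by
  unfold BB
  rw [Set.Finite.mem_toFinset]
  rfl

section fam

variable {I : Type} {e : I → Fam} {K : Finset Z3} {s : Finset I}

/-- `∑ α a • e a` -/
noncomputable def VV (e : I → Fam) (s : Finset I) (α : I → ℝ) (k : Z3) : E3 := ∑ a ∈ s, α a • e a k

theorem sum_inner_VV (f : Z3 → ℝ) (α β : I → ℝ) :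
    ∑ k ∈ K, f k * inner ℝ (VV e s α k) (VV e s β k) =
      ∑ a ∈ s, ∑ b ∈ s, (∑ k ∈ K, f k * inner ℝ (e a k) (e b k)) * α a * β b := by
  have h1 : ∀ k, f k * inner ℝ (VV e s α k) (VV e s β k) =
      ∑ a ∈ s, ∑ b ∈ s, f k * inner ℝ (e a k) (e b k) * α a * β b := by
    intro k
    unfold VV
    rw [sum_inner, Finset.mul_sum]
    refine Finset.sum_congr rfl fun a _ => ?_
    rw [inner_sum, Finset.mul_sum]
    refine Finset.sum_congr rfl fun b _ => ?_
    rw [inner_smul_left, inner_smul_right]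
    simp only [conj_trivial]
    ring
  simp only [h1]
  rw [Finset.sum_comm]
  refine Finset.sum_congr rfl fun a _ => ?_
  rw [Finset.sum_comm]
  refine Finset.sum_congr rfl fun b _ => ?_
  rw [Finset.sum_mul, Finset.sum_mul]

theorem pair_eq_sum (hK : ∀ a ∈ s, ∀ k, k ∉ K → e a k = 0) {a : I} (ha : a ∈ s) (f : Z3 → ℝ) (b : I) :
    ∑' k, f k * inner ℝ (e a k) (e b k) = ∑ k ∈ K, f k * inner ℝ (e a k) (e b k) := by
  refine tsum_eq_sum fun k hk => ?_
  rw [hK a ha k hk, inner_zero_left, mul_zero]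

theorem norm_VV (hK : ∀ a ∈ s, ∀ k, k ∉ K → e a k = 0)
    (h1 : ∀ a ∈ s, pair (e a) (e a) = 1) (h2 : ∀ a ∈ s, ∀ b ∈ s, a ≠ b → pair (e a) (e b) = 0)
    (α : I → ℝ) : ∑ k ∈ K, ‖VV e s α k‖ ^ 2 = ∑ a ∈ s, α a ^ 2 := by
  have h3 := sum_inner_VV (e := e) (K := K) (s := s) (fun _ => 1) α α
  simp only [one_mul, real_inner_self_eq_norm_sq] at h3
  rw [h3]
  refine Finset.sum_congr rfl fun a ha => ?_
  have h4 : ∀ b, ∑ k ∈ K, inner ℝ (e a k) (e b k) = pair (e a) (e b) := by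
    intro b
    have := pair_eq_sum hK ha (fun _ => 1) b
    simp only [one_mul] at this
    rw [← this]
    rfl
  rw [Finset.sum_eq_single a]
  · rw [h4, h1 a ha]
    ring
  · intro b hb hba
    rw [h4, h2 a ha b hb (Ne.symm hba)]
    ring
  · intro h
    exact absurd ha h

theorem fin_group (S : Set I) (hK : ∀ a ∈ S, ∀ k, k ∉ K → e a k = 0)
    (h1 : ∀ a ∈ S, pair (e a) (e a) = 1) (h2 : ∀ a ∈ S, ∀ b ∈ S, a ≠ b → pair (e a) (e b) = 0) :
    S.Finite := by
  have hli : LinearIndependent ℝ (fun (i : S) (k : K) => e i.1 k.1) := by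
    rw [linearIndependent_iff']
    intro t c hc i hi
    have h3 : ∀ k ∈ K, ∑ j ∈ t, c j • e j.1 k = 0 := by
      intro k hk
      have := congrFun hc ⟨k, hk⟩
      simpa using this
    have h4 : ∑ k ∈ K, inner ℝ (∑ j ∈ t, c j • e j.1 k) (e i.1 k) = 0 := by
      refine Finset.sum_eq_zero fun k hk => ?_
      rw [h3 k hk, inner_zero_left]
    have h5 : ∑ k ∈ K, inner ℝ (∑ j ∈ t, c j • e j.1 k) (e i.1 k) =
        ∑ j ∈ t, c j * ∑ k ∈ K, inner ℝ (e j.1 k) (e i.1 k) := by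
      simp only [sum_inner, inner_smul_left, conj_trivial, Finset.mul_sum]
      rw [Finset.sum_comm]
    have h6 : ∀ j : S, ∑ k ∈ K, inner ℝ (e j.1 k) (e i.1 k) = pair (e j.1) (e i.1) := by
      intro j
      unfold pair
      rw [tsum_eq_sum]
      intro k hk
      rw [hK j.1 j.2 k hk, inner_zero_left]
    rw [h5, Finset.sum_eq_single i] at h4
    · rwa [h6, h1 i.1 i.2, mul_one] at h4
    · intro j _ hji
      rw [h6, h2 j.1 j.2 i.1 i.2 (fun h => hji (Subtype.ext h)), mul_zero]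
    · intro h
      exact absurd hi h
  have := hli.finite_of_isNoetherian
  exact Set.toFinite S

end fam

/-- **LAP6.** -/
theorem t_LAP6 : S_LAP6 := by
  intro J g σ τ ν κ μ lam Λ M F L C ℓ N G B e hν hc hs
  classical
  obtain ⟨D, hD, hFD⟩ := hc.F_cmp
  obtain ⟨D1, hD1, hS⟩ := hc.S_F
  obtain ⟨D2, hD2, hF⟩ := hc.F_S
  have hKn : ∀ a k, k ∉ BB (F (gr g a)) → e a k = 0 := by
    intro a k hk
    by_contra h
    exact hk (mem_BB.2 (hc.fsupp a k h).2)
  have hfin : ∀ n, {i : Ix J | gr g i = n}.Finite := fun n =>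
    fin_group (e := e) (K := BB (F n)) {i : Ix J | gr g i = n} (fun a ha k hk => by
      have h1 : gr g a = n := ha
      rw [← h1] at hk
      exact hKn a k hk) (fun a _ => (hc.orth a a).1 rfl) (fun a _ b _ hab => (hc.orth a b).2 hab)
  -- reduction to finite sums
  have hpair : ∀ (n : ℕ) (α β : Ix J → ℝ), (∀ i, gr g i ≠ n → α i = 0) → (∀ i, gr g i ≠ n → β i = 0) →
      ∑' p : Ix J × Ix J, Dm ν e p.1 p.2 * α p.1 * β p.2 = ν * ((2 * Real.pi) ^ 2 *
        ∑ k ∈ BB (F n), ‖vec k‖ ^ 2 * inner ℝ (VV e (hfin n).toFinset α k) (VV e (hfin n).toFinset β k)) := by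
    intro n α β hα hβ
    have hmem : ∀ i, i ∈ (hfin n).toFinset ↔ gr g i = n := fun i => by
      rw [Set.Finite.mem_toFinset]
      rfl
    rw [tsum_eq_sum (s := (hfin n).toFinset ×ˢ (hfin n).toFinset), Finset.sum_product, sum_inner_VV,
      Finset.mul_sum, Finset.mul_sum]
    · refine Finset.sum_congr rfl fun a ha => ?_
      rw [Finset.mul_sum, Finset.mul_sum]
      refine Finset.sum_congr rfl fun b _ => ?_
      unfold Dm
      rw [pair_eq_sum (s := (hfin n).toFinset) (K := BB (F n)) (fun c hcc k hk => ?_) ha]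
      · ring
      · have h1 : gr g c = n := (hmem c).1 hcc
        rw [← h1] at hk
        exact hKn c k hk
    · rintro ⟨a, b⟩ hab
      rw [Finset.mem_product, hmem, hmem, not_and_or] at hab
      rcases hab with h | h
      · simp only [hα a h, mul_zero, zero_mul]
      · simp only [hβ b h, mul_zero]
  have hsq : ∀ (n : ℕ) (α : Ix J → ℝ), (∀ i, gr g i ≠ n → α i = 0) →
      ∑' i, α i ^ 2 = ∑ k ∈ BB (F n), ‖VV e (hfin n).toFinset α k‖ ^ 2 := by
    intro n α hα
    have hmem : ∀ i, i ∈ (hfin n).toFinset ↔ gr g i = n := fun i => by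
      rw [Set.Finite.mem_toFinset]
      rfl
    rw [norm_VV (fun c hcc k hk => ?_) (fun a _ => (hc.orth a a).1 rfl)
      (fun a _ b _ hab => (hc.orth a b).2 hab)]
    · refine tsum_eq_sum fun i hi => ?_
      rw [hmem] at hi
      rw [hα i hi]
      norm_num
    · have h1 : gr g c = n := (hmem c).1 hcc
      rw [← h1] at hk
      exact hKn c k hk
  have hpi := Real.pi_pos
  -- points where a combination of the modes of a group does not vanish
  have hne : ∀ (n : ℕ) (α : Ix J → ℝ) (k : Z3), VV e (hfin n).toFinset α k ≠ 0 →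
      ∃ a, gr g a = n ∧ e a k ≠ 0 := by
    intro n α k h0
    by_contra hcon
    push Not at hcon
    refine h0 (Finset.sum_eq_zero fun a ha => ?_)
    rw [hcon a (by rw [Set.Finite.mem_toFinset] at ha; exact ha), smul_zero]
  refine ⟨ν * (2 * Real.pi) ^ 2 / (D ^ 2 * D1), 10 ^ 6, by positivity, ?_, ?_, ?_, ?_, ?_, ?_,
    le_rfl⟩
  · intro a b
    unfold Dm
    congr 3
    funext k
    rw [real_inner_comm]
  · intro a b h
    by_contra hcon
    apply h
    have h1 : ∀ k, inner ℝ (e a k) (e b k) = 0 := by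
      intro k
      by_cases h2 : e a k = 0
      · rw [h2, inner_zero_left]
      · by_cases h3 : e b k = 0
        · rw [h3, inner_zero_right]
        · exact absurd (hc.disj a b k h2 h3) hcon
    unfold Dm
    simp [h1]
  · intro n
    exact hc.main n
  · intro n α β hα hβ
    rw [hpair n α β hα hβ, hsq n α hα, hsq n β hβ]
    set V := VV e (hfin n).toFinset α with hV
    set W := VV e (hfin n).toFinset β with hW
    have hκL : 0 ≤ κ ^ n * L n := by
      have h1 := hS n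
      have h2 := hF n
      nlinarith [sq_nonneg (F n), hD2, h2]
    have h1 : ν * ((2 * Real.pi) ^ 2 * |∑ k ∈ BB (F n), ‖vec k‖ ^ 2 * inner ℝ (V k) (W k)|) ≤
        10 ^ 6 * (κ ^ n * L n) *
          (√(∑ k ∈ BB (F n), ‖V k‖ ^ 2) * √(∑ k ∈ BB (F n), ‖W k‖ ^ 2)) := by
      have h2 : ∀ k ∈ BB (F n), ν * ((2 * Real.pi) ^ 2 * |‖vec k‖ ^ 2 * inner ℝ (V k) (W k)|) ≤
          10 ^ 6 * (κ ^ n * L n) * (‖V k‖ * ‖W k‖) := by
        intro k hk
        rw [abs_mul, abs_of_nonneg (by positivity : 0 ≤ ‖vec k‖ ^ 2)]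
        by_cases h0 : V k = 0
        · rw [h0, inner_zero_left, abs_zero, norm_zero]
          simp
        · obtain ⟨a, ha, hak⟩ := hne n α k h0
          have h3 := hc.up1 a k hak
          rw [ha] at h3
          calc ν * ((2 * Real.pi) ^ 2 * (‖vec k‖ ^ 2 * |inner ℝ (V k) (W k)|)) =
              ν * (2 * Real.pi * ‖vec k‖) ^ 2 * |inner ℝ (V k) (W k)| := by ring
            _ ≤ 10 ^ 6 * (κ ^ n * L n) * (‖V k‖ * ‖W k‖) :=
              mul_le_mul h3 (abs_real_inner_le_norm _ _) (abs_nonneg _) (by positivity)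
      calc ν * ((2 * Real.pi) ^ 2 * |∑ k ∈ BB (F n), ‖vec k‖ ^ 2 * inner ℝ (V k) (W k)|)
          ≤ ν * ((2 * Real.pi) ^ 2 * ∑ k ∈ BB (F n), |‖vec k‖ ^ 2 * inner ℝ (V k) (W k)|) :=
            mul_le_mul_of_nonneg_left (mul_le_mul_of_nonneg_left
              (Finset.abs_sum_le_sum_abs _ _) (by positivity)) hν.le
        _ = ∑ k ∈ BB (F n), ν * ((2 * Real.pi) ^ 2 * |‖vec k‖ ^ 2 * inner ℝ (V k) (W k)|) := by
            rw [Finset.mul_sum, Finset.mul_sum]
        _ ≤ ∑ k ∈ BB (F n), 10 ^ 6 * (κ ^ n * L n) * (‖V k‖ * ‖W k‖) := Finset.sum_le_sum h2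
        _ = 10 ^ 6 * (κ ^ n * L n) * ∑ k ∈ BB (F n), ‖V k‖ * ‖W k‖ := by rw [Finset.mul_sum]
        _ ≤ _ := mul_le_mul_of_nonneg_left (Real.sum_mul_le_sqrt_mul_sqrt _ _ _) (by positivity)
    rw [abs_mul, abs_of_pos hν, abs_mul, abs_of_nonneg (by positivity : 0 ≤ (2 * Real.pi) ^ 2)]
    calc ν * ((2 * Real.pi) ^ 2 * |∑ k ∈ BB (F n), ‖vec k‖ ^ 2 * inner ℝ (V k) (W k)|)
        ≤ _ := h1
      _ = _ := by ring
  · intro n α hα
    rw [hpair n α α hα hα, hsq n α hα]
    set V := VV e (hfin n).toFinset α with hV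
    have h1 : F n ^ 2 / D ^ 2 * ∑ k ∈ BB (F n), ‖V k‖ ^ 2 ≤
        ∑ k ∈ BB (F n), ‖vec k‖ ^ 2 * inner ℝ (V k) (V k) := by
      rw [Finset.mul_sum]
      refine Finset.sum_le_sum fun k _ => ?_
      rw [real_inner_self_eq_norm_sq]
      by_cases h0 : V k = 0
      · rw [h0, norm_zero]
        norm_num
      · have h2 : ∃ a ∈ (hfin n).toFinset, e a k ≠ 0 := by
          by_contra hcon
          push Not at hcon
          refine h0 (Finset.sum_eq_zero fun a ha => ?_)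
          rw [hcon a ha, smul_zero]
        obtain ⟨a, ha, hak⟩ := h2
        have h3 : gr g a = n := by
          rw [Set.Finite.mem_toFinset] at ha
          exact ha
        have h4 := hFD a k hak
        have h5 := (hc.fsupp a k hak).1.trans (hc.fsupp a k hak).2
        rw [h3] at h4 h5
        have h6 : F n ^ 2 / D ^ 2 ≤ ‖vec k‖ ^ 2 := by
          rw [div_le_iff₀ (by positivity), ← mul_pow, mul_comm]
          exact pow_le_pow_left₀ (by linarith) h4 2
        exact mul_le_mul_of_nonneg_right h6 (by positivity)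
    have hnn : 0 ≤ ∑ k ∈ BB (F n), ‖V k‖ ^ 2 := Finset.sum_nonneg fun k _ => by positivity
    calc ν * (2 * Real.pi) ^ 2 / (D ^ 2 * D1) * (κ ^ n * L n) * ∑ k ∈ BB (F n), ‖V k‖ ^ 2
        ≤ ν * (2 * Real.pi) ^ 2 / (D ^ 2 * D1) * (D1 * F n ^ 2) * ∑ k ∈ BB (F n), ‖V k‖ ^ 2 := by
          refine mul_le_mul_of_nonneg_right (mul_le_mul_of_nonneg_left (hS n) (by positivity)) hnn
      _ = ν * ((2 * Real.pi) ^ 2 * (F n ^ 2 / D ^ 2 * ∑ k ∈ BB (F n), ‖V k‖ ^ 2)) := by
          field_simp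
      _ ≤ _ := by
          refine mul_le_mul_of_nonneg_left (mul_le_mul_of_nonneg_left h1 (by positivity)) hν.le

  · intro n α hα
    rw [hpair (n + 1) α α hα hα, hsq (n + 1) α hα]
    set V := VV e (hfin (n + 1)).toFinset α with hV
    rw [Finset.mul_sum, Finset.mul_sum, Finset.mul_sum]
    refine Finset.sum_le_sum fun k _ => ?_
    rw [real_inner_self_eq_norm_sq]
    by_cases h0 : V k = 0
    · rw [h0, norm_zero]
      norm_num
    · obtain ⟨a, ha, hak⟩ := hne (n + 1) α k h0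
      have h4 := hc.low1 n a k ha hak
      calc 1 / 1000 * (κ ^ n * L n) * ‖V k‖ ^ 2 ≤ ν * (2 * Real.pi * ‖vec k‖) ^ 2 * ‖V k‖ ^ 2 :=
            mul_le_mul_of_nonneg_right h4 (by positivity)
        _ = _ := by ring

end Pool.Agent.Y5.S2.Lap
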