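import Pool.Agent.Y5.S2.Defs

/-! Statements of the steps (Navier-Stokes with an additional skew-adjoint linear term of
order 2). -/

open Set Filter Topology MeasureTheory

set_option autoImplicit false

namespace Pool.Agent.Y5.S2

open Pool.Agent.Y5 Pool.Agent.Y5.D Pool.Agent.Y5.E Pool.Agent.Y5.F
open Pool.Agent.Y6.N (lin Dm Skew SolN S_FLDB)
open Pool.Agent.Y5.G (OB)
open Pool.Agent.Y8.EP (Grow5 Sq5)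

/-! ### Well-posedness -/

/-- Well-posedness of quadratic systems with a block diagonal, dissipative linear term. -/
def S_WPA : Prop := ∀ (I : Type) (b : I → ℕ) (T : I → I → ℝ) (d r : I → ℝ)
  (c : I → I → I → ℝ), Adm d r c → Blk T d r b → ∀ z₀ : I → ℝ, (∀ k : ℕ, Sk r k z₀) →
  ∃ z : I → ℝ → ℝ, (∀ i, z i 0 = z₀ i) ∧
    ((∀ Θ, BSol T r c Θ z) ∨
      ∃ Θ, 0 < Θ ∧ BSol T r c Θ z ∧ ¬ ∃ M, ∀ t ∈ Ico 0 Θ, nk r 1 (fun a => z a t) ≤ M)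

/-- The kernels satisfy the hypotheses of `S_WPA`. -/
def S_EST6 : Prop := ∀ (J : Type) (g : J → ℕ) (κ μ lam Λ M a : ℝ) (L C ℓ : ℕ → ℝ)
  (B : ℕ → ℕ → ℝ) (c : Ix J → Ix J → Ix J → ℝ), Ker g Λ M L C B c →
  Sq6 κ μ lam Λ M L C ℓ B → 0 < a → Adm (dB a κ L g) (rB L g) c

/-- Well-posedness of the full system. -/
def S_WP6 : Prop := ∀ (J : Type) (g : J → ℕ) (σ : J → J) (τ : J → ℝ)
  (κ μ lam Λ M a D₁ Q A : ℝ) (L C ℓ : ℕ → ℝ) (B : ℕ → ℕ → ℝ) (D : Ix J → Ix J → ℝ)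
  (c : Ix J → Ix J → Ix J → ℝ), Ker g Λ M L C B c → Sq6 κ μ lam Λ M L C ℓ B → Rot2 g σ τ →
  Dis2 g a D₁ κ L ℓ D → 0 < a → ∃ z : Ix J → ℝ → ℝ, Init2 A z ∧
    ((∀ T, NSol2 Q κ L g σ τ D c T z) ∨
      ∃ T, 0 < T ∧ NSol2 Q κ L g σ τ D c T z ∧
        ¬ ∃ X, ∀ t ∈ Ico 0 T, nk (rI L g) 1 (fun a => z a t) ≤ X)

/-- The abstract well-posedness gives the concrete one. -/
def S_WPC : Prop := S_WPA → S_EST6 → S_WP6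

/-! ### The dynamics -/

/-- The dynamics of the full system for large speeds `Q` (reduced system and barriers). -/
def S_DYN6 : Prop := ∀ (J : Type) (g : J → ℕ) (σ : J → J) (τ : J → ℝ)
  (κ μ lam Λ M a D₁ : ℝ) (L C ℓ : ℕ → ℝ) (B : ℕ → ℕ → ℝ) (D : Ix J → Ix J → ℝ)
  (c : Ix J → Ix J → Ix J → ℝ), Ker g Λ M L C B c → Sq6 κ μ lam Λ M L C ℓ B → Rot2 g σ τ →
  Dis2 g a D₁ κ L ℓ D → 0 < a → ∃ Q T₁ : ℝ, 0 < Q ∧ ∀ (T : ℝ) (z : Ix J → ℝ → ℝ), 0 < T →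
    NSol2 Q κ L g σ τ D c T z → Init2 (3 / 2) z →
    T ≤ T₁ ∧ ((Grow5 κ μ T (fun n => z (Sum.inl n)) (wz g z) ∧
        TI κ T L (fun n => z (Sum.inl n)) (wz g z)) ∨
      ∃ (n₀ : ℕ) (K₀ : ℝ), ∃ s ∈ Ico 0 T, ∀ t ∈ Ico s T, ∀ k : ℕ,
        √(Yt (fun n => z (Sum.inl n)) (wz g z) (n₀ + k) t) ≤ K₀ * Real.exp (-(μ / 100 * k)))

/-- Blow-up for the full system of the modes. -/
def S_BLOW6 : Prop := ∀ (J : Type) (g : J → ℕ) (σ : J → J) (τ : J → ℝ)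
  (κ μ lam Λ M a D₁ : ℝ) (L C ℓ : ℕ → ℝ) (B : ℕ → ℕ → ℝ) (D : Ix J → Ix J → ℝ)
  (c : Ix J → Ix J → Ix J → ℝ), Ker g Λ M L C B c → Sq6 κ μ lam Λ M L C ℓ B → Rot2 g σ τ →
  Dis2 g a D₁ κ L ℓ D → 0 < a → ∃ (Q T : ℝ) (z : Ix J → ℝ → ℝ), 0 < Q ∧ 0 < T ∧
    NSol2 Q κ L g σ τ D c T z ∧ Init2 (3 / 2) z ∧
    (¬ ∃ X, ∀ t ∈ Ico 0 T, nk (rI L g) 1 (fun a => z a t) ≤ X) ∧
    Grow5 κ μ T (fun n => z (Sum.inl n)) (wz g z) ∧ TI κ T L (fun n => z (Sum.inl n)) (wz g z)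

/-- Assembly of the blow-up for the full system. -/
def S_BLOWA6 : Prop := S_WP6 → S_DYN6 → S_BLOW6

/-! ### The concrete system -/

/-- The packets of `E.S_TAB2`, with the value `ϱ * (K n) ^ 2` of their Dirichlet integrals up to
the error `10 ^ (-5) * (K n) ^ 2`. -/
def S_TAB3 : Prop := ∃ (β D ϱ : ℝ) (p K₁ : ℕ), 0 < β ∧ 0 < D ∧ 1 ≤ ϱ ∧ ϱ ≤ 2 ∧ 0 < K₁ ∧
  ∀ (K : ℕ → ℕ) (γ : ℕ → ℝ), K₁ ≤ K 0 → (∀ n, K₁ * K n ≤ K (n + 1)) → (∀ n, 20 ∣ K n) →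
    (∀ n, 0 < γ n ∧ γ n * ((K (n + 1) : ℝ) / K n) ^ p ≤ 1) →
    ∃ (h : ℕ → Z3) (P : ℕ → Fam) (C : ℕ → ℝ) (B : ℕ → ℕ → ℝ), Tab2 K γ β D p h P C B ∧
      ∀ n, |∑' k, ‖vec k‖ ^ 2 * ‖P n k‖ ^ 2 - ϱ * (K n : ℝ) ^ 2| ≤ 1 / 10 ^ 5 * (K n : ℝ) ^ 2

/-- Choice of the scales `K n = K₀ * R ^ n`, `Λ = R`, `lam = R ^ (5/2)`, `μ = R ^ 2`,
`κ = R ^ (-1/2)`, `γ = κ * exp (- (6/100) μ)`, and of the amplitude `A` (so that the damping of the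
mode `n + 1` is `9/10 * κ ^ n * L n`, `L n = A * β * (K n) ^ (5/2)`). -/
def S_SEQ6 : Prop := ∀ (ν β D ϱ : ℝ) (p K₁ : ℕ), 0 < ν → 0 < β → 0 < D → 1 ≤ ϱ → ϱ ≤ 2 →
  0 < K₁ → ∃ (K₀ R : ℕ) (κ μ lam γ A : ℝ), K₁ ≤ K₀ ∧ 20 ∣ K₀ ∧ 10 ^ 6 ≤ K₀ ∧ K₁ ≤ R ∧
    10 ^ 12 ≤ R ∧ lam = (R : ℝ) ^ 2 * √(R : ℝ) ∧ μ = (R : ℝ) ^ 2 ∧ 0 < γ ∧
    γ * (R : ℝ) ^ p ≤ 1 ∧ 0 < A ∧ 1 ≤ D * ((K₀ : ℝ) * √(K₀ : ℝ)) ∧
    (R : ℝ) * √(R : ℝ) ≤ Real.exp (μ / 1000) * D ∧ 10 ^ 9 ≤ κ * ((R : ℝ) * √(R : ℝ)) ∧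
    ∀ (C ℓ : ℕ → ℝ) (B : ℕ → ℕ → ℝ), (∀ n, γ ≤ C n * (R : ℝ) ^ p) →
      (∀ n, C n ≤ γ * (R : ℝ) ^ p) → (∀ i n, i < n → 999 / 1000 ≤ B i n) →
      (∀ i n, i < n → B i n ≤ 1001 / 1000) →
      (∀ n : ℕ, |ℓ n - ν * ((2 * Real.pi) ^ 2 * (ϱ * ((K₀ : ℝ) * R ^ n) ^ 2))| ≤
        1 / 10 ^ 5 * (ν * ((2 * Real.pi) ^ 2 * ((K₀ : ℝ) * R ^ n) ^ 2))) →
      Sq6 κ μ lam R (1 + 100 * (R : ℝ) ^ 3 / β)
        (fun n => A * (β * (((K₀ : ℝ) * R ^ n) ^ 2 * √((K₀ : ℝ) * R ^ n)))) C ℓ B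

/-- The concrete kernel: packets of trigonometric polynomials, completed to an orthonormal
system, with the other modes of every double group arranged in pairs. -/
def S_CONC6 : Prop := ∀ ν : ℝ, 0 < ν → ∃ (J : Type) (g : J → ℕ) (σ : J → J) (τ : J → ℝ)
  (κ μ lam Λ M A : ℝ) (F L C ℓ N G : ℕ → ℝ) (B : ℕ → ℕ → ℝ) (e : Ix J → Fam), 0 < A ∧
    Conc6 ν κ μ lam g σ τ F L ℓ N G e ∧ Sq6 κ μ lam Λ M L C ℓ B ∧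
    Ker g Λ M L C B (fun j a b => A * bil (e a) (e b) (e j))

/-- Completion of the packets to an orthonormal system, and bounds for the kernel. -/
def S_ONB6 : Prop := S_TAB3 → S_SEQ6 → S_CONC6

/-- The matrix of `- ν Δ`. -/
def S_LAP6 : Prop := ∀ (J : Type) (g : J → ℕ) (σ : J → J) (τ : J → ℝ)
  (ν κ μ lam Λ M : ℝ) (F L C ℓ N G : ℕ → ℝ) (B : ℕ → ℕ → ℝ) (e : Ix J → Fam), 0 < ν →
  Conc6 ν κ μ lam g σ τ F L ℓ N G e → Sq6 κ μ lam Λ M L C ℓ B →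
  ∃ a D₁ : ℝ, 0 < a ∧ Dis2 g a D₁ κ L ℓ (Dm ν e)

/-- The orthonormal system satisfies `OB`. -/
def S_OB6 : Prop := ∀ (J : Type) (g : J → ℕ) (σ : J → J) (τ : J → ℝ)
  (ν κ μ lam Λ M A : ℝ) (F L C ℓ N G : ℕ → ℝ) (B : ℕ → ℕ → ℝ) (e : Ix J → Fam), 0 < A →
  Conc6 ν κ μ lam g σ τ F L ℓ N G e → Sq6 κ μ lam Λ M L C ℓ B →
  Ker g Λ M L C B (fun j a b => A * bil (e a) (e b) (e j)) →
  ∃ F' : Ix J → ℝ, OB F' e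

/-- Uniqueness of smooth solutions, and the energy identity. -/
def S_UNI6 : Prop := ∀ (I : Type) (F : I → ℝ) (e : I → Fam) (σ : I → I) (s : I → ℝ) (ν T : ℝ),
  OB F e → (∀ i, σ (σ i) = i) → (∀ i, s (σ i) = -s i) → 0 ≤ ν →
    (∀ V W : ℝ → Fam, FSol ν e σ s T V → FSol ν e σ s T W → (∀ k, V 0 k = W 0 k) →
      ∀ t ∈ Ico 0 T, ∀ k, V t k = W t k) ∧
    ∀ V : ℝ → Fam, FSol ν e σ s T V → ∀ t ∈ Ico 0 T,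
      HasDerivWithinAt (fun τ => pair (V τ) (V τ)) (-(2 * (ν * lp (V t) (V t)))) (Ico 0 T) t

/-- From the modes to the Fourier coefficients. -/
def S_EX6 : Prop := ∀ (J : Type) (g : J → ℕ) (σ : J → J) (τ : J → ℝ)
  (ν κ μ lam Λ M A Q : ℝ) (F L C ℓ N G : ℕ → ℝ) (B : ℕ → ℕ → ℝ) (e : Ix J → Fam), 0 < A →
  Conc6 ν κ μ lam g σ τ F L ℓ N G e → Sq6 κ μ lam Λ M L C ℓ B →
  Ker g Λ M L C B (fun j a b => A * bil (e a) (e b) (e j)) →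
  ∀ (T : ℝ) (z : Ix J → ℝ → ℝ), 0 < T →
    NSol2 Q κ L g σ τ (Dm ν e) (fun j a b => A * bil (e a) (e b) (e j)) T z →
    FSol ν e (σ2 σ) (s2 Q κ L g τ) T (fun t => sy e (fun a => A * z a t)) ∧
    ∀ t ∈ Ico 0 T, ∀ a, pair (sy e (fun b => A * z b t)) (e a) = A * z a t

/-- The velocity is unbounded. -/
def S_VEL6 : Prop := ∀ (J : Type) (g : J → ℕ) (σ : J → J) (τ : J → ℝ)
  (ν κ μ lam Λ M A : ℝ) (F L C ℓ N G : ℕ → ℝ) (B : ℕ → ℕ → ℝ) (e : Ix J → Fam), 0 < A →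
  Conc6 ν κ μ lam g σ τ F L ℓ N G e → Sq6 κ μ lam Λ M L C ℓ B →
  Ker g Λ M L C B (fun j a b => A * bil (e a) (e b) (e j)) →
  ∀ (T : ℝ) (z : Ix J → ℝ → ℝ), Rapid (rI L g) T z →
    Grow5 κ μ T (fun n => z (Sum.inl n)) (wz g z) →
    ∀ R : ℝ, ∃ t ∈ Ico 0 T, ∃ y, R < ‖fieldOf (sy e (fun a => A * z a t)) y‖

/-- The rate of the blow-up: Type I. -/
def S_SUP6 : Prop := ∀ (J : Type) (g : J → ℕ) (σ : J → J) (τ : J → ℝ)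
  (ν κ μ lam Λ M A : ℝ) (F L C ℓ N G : ℕ → ℝ) (B : ℕ → ℕ → ℝ) (e : Ix J → Fam), 0 < A →
  Conc6 ν κ μ lam g σ τ F L ℓ N G e → Sq6 κ μ lam Λ M L C ℓ B →
  Ker g Λ M L C B (fun j a b => A * bil (e a) (e b) (e j)) →
  ∀ (T : ℝ) (z : Ix J → ℝ → ℝ), Rapid (rI L g) T z →
    TI κ T L (fun n => z (Sum.inl n)) (wz g z) →
    ∃ X : ℝ, ∀ t ∈ Ico 0 T, ∀ y, ‖fieldOf (sy e (fun a => A * z a t)) y‖ * √(T - t) ≤ X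

/-- Coefficients of smooth families decay (in terms of the groups). -/
def S_REG6 : Prop := ∀ (J : Type) (g : J → ℕ) (σ : J → J) (τ : J → ℝ)
  (ν κ μ lam Λ M : ℝ) (F L C ℓ N G : ℕ → ℝ) (B : ℕ → ℕ → ℝ) (e : Ix J → Fam),
  Conc6 ν κ μ lam g σ τ F L ℓ N G e → Sq6 κ μ lam Λ M L C ℓ B →
  ∃ (m : ℕ) (X : ℝ), ∀ (V : Fam) (K : ℝ), OT V → Rap V → (∀ k, ‖vec k‖ ^ m * ‖V k‖ ≤ K) →
    nk (rI L g) 1 (fun a => pair V (e a)) ≤ X * K ^ 2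

/-- The skew term is of order 2. -/
def S_ORD6 : Prop := S_FLD → ∀ (J : Type) (g : J → ℕ) (σ : J → J) (τ : J → ℝ)
  (ν κ μ lam Λ M A Q : ℝ) (F L C ℓ N G : ℕ → ℝ) (B : ℕ → ℕ → ℝ) (e : Ix J → Fam), 0 < A →
  0 < Q → Conc6 ν κ μ lam g σ τ F L ℓ N G e → Sq6 κ μ lam Λ M L C ℓ B →
  Ker g Λ M L C B (fun j a b => A * bil (e a) (e b) (e j)) →
  Ord2 (fun a => fieldOf (e a)) (σ2 σ) (s2 Q κ L g τ)

/-! ### The main theorem -/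

/-- The Navier-Stokes equations with an additional skew-adjoint linear term of order 2: blow-up,
for every viscosity. -/
def S_MAIN6 : Prop := ∀ ν : ℝ, 0 < ν → ∃ (ι : Type) (e : ι → E3 → E3) (σ : ι → ι) (s : ι → ℝ)
  (T : ℝ) (u : ℝ → E3 → E3), Skew e σ s ∧ Ord2 e σ s ∧ 0 < T ∧ SolN ν e σ s T u ∧ TP (u 0) ∧
    -- uniqueness, and `T` is the maximal time of existence
    (∀ (T' : ℝ) (v : ℝ → E3 → E3), 0 < T' → SolN ν e σ s T' v → v 0 = u 0 →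
      T' ≤ T ∧ ∀ t ∈ Ico 0 T', v t = u t) ∧
    -- the energy identity of the Navier-Stokes equations
    (∀ t ∈ Ico 0 T, HasDerivWithinAt (fun τ => ip (u τ) (u τ)) (-(2 * (ν * dir (u t))))
      (Ico 0 T) t) ∧
    -- blow-up of the velocity
    ∀ M : ℝ, ∃ t ∈ Ico 0 T, ∃ y, M < ‖u t y‖

end Pool.Agent.Y5.S2
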