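import Pool.Agent.Y6.N.Stm
import Pool.Agent.Y8.EP.Stm
import Pool.Agent.Y5.G.Defs

/-!
Definitions for the Navier-Stokes equations with an additional skew-adjoint linear term of order 2
(exact viscosity `ν Δ`, exact nonlinearity; endpoint dynamics of `Pool.Agent.Y8.EP`).

The full system of the modes `z`, with the index set `Ix J`:
`z i' = (A z) i - (D z) i + ∑ c i a b * z a * z b`, where `D` is the matrix of `- ν Δ` (block
diagonal in the groups `gr g i = n`) and `A` rotates the other modes in the pairs `{j, σ j}` which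
belong to the same double group `{2 G, 2 G + 1}`, with the speed `Q * (κ ^ (2 G) * L (2 G))`.
-/

open Set Filter Topology MeasureTheory

set_option autoImplicit false

namespace Pool.Agent.Y5.S2

open Pool.Agent.Y5 Pool.Agent.Y5.D Pool.Agent.Y5.E Pool.Agent.Y5.F
open Pool.Agent.Y6.N (lin Dm)

/-! ### Parameters -/

/-- Conditions on the parameters (as `Y8.EP.Sq5`; here `Λ ^ 2 = μ` and the damping `ℓ` is only
known up to the relative error `10 ^ (-4)`, also for the mode `0`). -/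
structure Sq6 (κ μ lam Λ M : ℝ) (L C ℓ : ℕ → ℝ) (B : ℕ → ℕ → ℝ) : Prop where
  κ0 : 0 < κ
  κ1 : κ ≤ 1
  κs : κ ≤ 1 / 1000
  μ_eq : μ = κ * lam
  μ_big : 10 ^ 30 ≤ μ
  L0 : 1 ≤ L 0
  L_succ : ∀ n, L (n + 1) = lam * L n
  Λ_ge : 2 ≤ Λ
  Λ_sq : Λ ^ 2 = μ
  M_one : 1 ≤ M
  exp_big : (10 ^ 6 * M ^ 4 * lam ^ 3) ^ 10 ≤ Real.exp (μ / 10 ^ 6)
  C_lo : ∀ n, κ * Real.exp (-(601 / 10000 * μ)) ≤ C n
  C_hi : ∀ n, C n ≤ κ * Real.exp (-(599 / 10000 * μ))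
  B_lo : ∀ i n, i < n → 999 / 1000 ≤ B i n
  B_hi : ∀ i n, i < n → B i n ≤ 1001 / 1000
  ℓ_zero : |ℓ 0 * μ - 9 / 10 * L 0| ≤ 1 / 10 ^ 4 * L 0
  ℓ_succ : ∀ n, |ℓ (n + 1) - 9 / 10 * (κ ^ n * L n)| ≤ 1 / 10 ^ 4 * (κ ^ n * L n)

/-! ### The system of the modes -/

/-- Rotations of the other modes: in the pairs `{j, σ j}`, inside the double groups. -/
structure Rot2 {J : Type} (g : J → ℕ) (σ : J → J) (τ : J → ℝ) : Prop where
  inv : ∀ j, σ (σ j) = j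
  grp : ∀ j, g (σ j) / 2 = g j / 2
  skew : ∀ j, τ (σ j) = -τ j
  unit : ∀ j, τ j ^ 2 = 1

/-- the speed of the rotation in the double group `{2 G, 2 G + 1}` -/
noncomputable def Om (Q κ : ℝ) (L : ℕ → ℝ) (G : ℕ) : ℝ := Q * (κ ^ (2 * G) * L (2 * G))

/-- the skew linear term -/
noncomputable def Az {J : Type} (Q κ : ℝ) (L : ℕ → ℝ) (g : J → ℕ) (σ : J → J) (τ : J → ℝ)
    (z : Ix J → ℝ) : Ix J → ℝ
  | Sum.inl _ => 0
  | Sum.inr j => Om Q κ L (g j / 2) * τ j * z (Sum.inr (σ j))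

/-- The matrix of the dissipation: symmetric, block diagonal in the groups, in the group `n`
between `a * κ ^ n * L n` and `D₁ * κ ^ n * L n`, and at least `1/1000 * κ ^ n * L n` in the group
`n + 1`. -/
structure Dis2 {J : Type} (g : J → ℕ) (a D₁ κ : ℝ) (L ℓ : ℕ → ℝ) (D : Ix J → Ix J → ℝ) :
    Prop where
  symm : ∀ i b, D i b = D b i
  blk : ∀ i b, D i b ≠ 0 → gr g i = gr g b
  diag : ∀ n, D (Sum.inl n) (Sum.inl n) = ℓ n
  up : ∀ (n : ℕ) (α β : Ix J → ℝ), (∀ i, gr g i ≠ n → α i = 0) → (∀ i, gr g i ≠ n → β i = 0) →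
    |∑' p : Ix J × Ix J, D p.1 p.2 * α p.1 * β p.2| ≤
      D₁ * (κ ^ n * L n) * √(∑' i, α i ^ 2) * √(∑' i, β i ^ 2)
  low : ∀ (n : ℕ) (α : Ix J → ℝ), (∀ i, gr g i ≠ n → α i = 0) →
    a * (κ ^ n * L n) * ∑' i, α i ^ 2 ≤ ∑' p : Ix J × Ix J, D p.1 p.2 * α p.1 * α p.2
  low1 : ∀ (n : ℕ) (α : Ix J → ℝ), (∀ i, gr g i ≠ n + 1 → α i = 0) →
    1 / 1000 * (κ ^ n * L n) * ∑' i, α i ^ 2 ≤ ∑' p : Ix J × Ix J, D p.1 p.2 * α p.1 * α p.2
  D1 : D₁ ≤ 10 ^ 6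

/-- Regular solutions of the full system on `[0, T)`: all weighted norms are bounded on
`[0, T']`, `T' < T`. -/
structure NSol2 {J : Type} (Q κ : ℝ) (L : ℕ → ℝ) (g : J → ℕ) (σ : J → J) (τ : J → ℝ)
    (D : Ix J → Ix J → ℝ) (c : Ix J → Ix J → Ix J → ℝ) (T : ℝ) (z : Ix J → ℝ → ℝ) : Prop where
  deriv : ∀ i, ∀ t ∈ Ico 0 T, HasDerivWithinAt (z i)
    (Az Q κ L g σ τ (fun a => z a t) i - lin D (fun a => z a t) i +
      bl c (fun a => z a t) (fun a => z a t) i) (Ico 0 T) t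
  rapid : Rapid (rI L g) T z

/-- Decay of the energies of the tails before the blow-up time (this gives the rate of the
blow-up). -/
def TI (κ T : ℝ) (L : ℕ → ℝ) (x w : ℕ → ℝ → ℝ) : Prop :=
  ∃ C₀ : ℝ, ∀ t ∈ Ico 0 T, ∀ p, √(Yt x w p t) * (1 + κ ^ p * L p * (T - t)) ≤ C₀ * κ ^ p

/-- initial datum: `A` times the main mode `0` -/
def Init2 {J : Type} (A : ℝ) (z : Ix J → ℝ → ℝ) : Prop :=
  z (Sum.inl 0) 0 = A ∧ (∀ n, z (Sum.inl (n + 1)) 0 = 0) ∧ ∀ w, z (Sum.inr w) 0 = 0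

/-! ### Abstract systems with a block diagonal linear term -/

/-- Regular solutions of `z' = T z + ∑ c i a b * z a * z b` on `[0, Θ)`. -/
structure BSol {I : Type} (T : I → I → ℝ) (r : I → ℝ) (c : I → I → I → ℝ) (Θ : ℝ)
    (z : I → ℝ → ℝ) : Prop where
  deriv : ∀ i, ∀ t ∈ Ico 0 Θ, HasDerivWithinAt (z i)
    (lin T (fun a => z a t) i + bl c (fun a => z a t) (fun a => z a t) i) (Ico 0 Θ) t
  rapid : Rapid r Θ z

/-- Block diagonal, dissipative linear terms (finite blocks; the weights `r` and the rates `d` are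
constant on the blocks). -/
structure Blk {I : Type} (T : I → I → ℝ) (d r : I → ℝ) (b : I → ℕ) : Prop where
  fin : ∀ n, {i | b i = n}.Finite
  blk : ∀ i j, T i j ≠ 0 → b i = b j
  const : ∀ i j, b i = b j → d i = d j ∧ r i = r j
  size : ∃ (D : ℝ) (p : ℕ), ∀ i j, |T i j| ≤ D * r i ^ p
  diss : ∀ (n : ℕ) (z : I → ℝ), (∀ i, b i ≠ n → z i = 0) →
    ∑' p : I × I, T p.1 p.2 * z p.1 * z p.2 ≤ -(∑' i, d i * z i ^ 2)

/-- weights which are constant on the double groups -/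
noncomputable def rB {J : Type} (L : ℕ → ℝ) (g : J → ℕ) (i : Ix J) : ℝ := L (2 * (gr g i / 2))

/-- dissipation rates which are constant on the double groups -/
noncomputable def dB {J : Type} (a κ : ℝ) (L : ℕ → ℝ) (g : J → ℕ) (i : Ix J) : ℝ :=
  a * (κ ^ (2 * (gr g i / 2)) * L (2 * (gr g i / 2)))

/-! ### Fourier coefficients -/

/-- `∫ ∇v : ∇w` in terms of the coefficients -/
noncomputable def lp (V W : Fam) : ℝ :=
  (2 * Real.pi) ^ 2 * ∑' k : Z3, ‖vec k‖ ^ 2 * inner ℝ (V k) (W k)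

/-- The orthonormal system `e`, in groups; `F n` bounds the frequencies of the group `n`
(as `F.Conc4`, with the exact damping of the main modes by `- ν Δ`, and with the pairs). -/
structure Conc6 {J : Type} (ν κ μ lam : ℝ) (g : J → ℕ) (σ : J → J) (τ : J → ℝ)
    (F L ℓ N G : ℕ → ℝ) (e : Ix J → Fam) : Prop where
  ot : ∀ a, OT (e a)
  fsupp : ∀ a k, e a k ≠ 0 → 1 ≤ ‖vec k‖ ∧ ‖vec k‖ ≤ F (gr g a)
  F_cmp : ∃ D : ℝ, 0 < D ∧ ∀ a k, e a k ≠ 0 → F (gr g a) ≤ D * ‖vec k‖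
  F_L : ∃ D : ℝ, 0 < D ∧ ∀ n, F n ≤ D * L n
  L_F : ∃ D : ℝ, 0 < D ∧ ∀ n, L n ≤ D * F n ^ (5 / 2 : ℝ)
  S_F : ∃ D : ℝ, 0 < D ∧ ∀ n, κ ^ n * L n ≤ D * F n ^ 2
  F_S : ∃ D : ℝ, 0 < D ∧ ∀ n, F n ^ 2 ≤ D * (κ ^ n * L n)
  κF : ∃ D : ℝ, 0 < D ∧ ∀ n, κ ^ (2 * n) * F n ≤ D
  disj : ∀ a b k, e a k ≠ 0 → e b k ≠ 0 → gr g a = gr g b
  orth : ∀ a b, (a = b → pair (e a) (e b) = 1) ∧ (a ≠ b → pair (e a) (e b) = 0)
  compl : ∀ V, OT V → (∀ a, pair V (e a) = 0) → ∀ k, V k = 0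
  main : ∀ n, ν * lp (e (Sum.inl n)) (e (Sum.inl n)) = ℓ n
  low1 : ∀ (n : ℕ) a k, gr g a = n + 1 → e a k ≠ 0 →
    1 / 1000 * (κ ^ n * L n) ≤ ν * (2 * Real.pi * ‖vec k‖) ^ 2
  up1 : ∀ a k, e a k ≠ 0 →
    ν * (2 * Real.pi * ‖vec k‖) ^ 2 ≤ 10 ^ 6 * (κ ^ gr g a * L (gr g a))
  rot : Rot2 g σ τ
  G0 : ∀ n, 0 ≤ G n
  cnt : ∀ n, ({k | ∃ a, gr g a = n ∧ e a k ≠ 0}.ncard : ℝ) ≤ G n ^ 2
  N0 : 1 ≤ N 0
  N_grow : ∀ n, 10 ^ 9 * N n ≤ κ * N (n + 1)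
  N_up : ∀ n, N (n + 1) ≤ lam * N n
  G_le : ∀ n, G n ≤ Real.exp (μ / 1000) * N n
  l1N : ∀ n, ∑' k, ‖e (Sum.inl n) k‖ ≤ N n
  pt : ∀ n, ∃ y : E3, N n / 1000 ≤
    ‖∑' k : Z3, Real.sin (2 * Real.pi * inner ℝ (vec k) y) • e (Sum.inl n) k‖

/-- Solutions in terms of the coefficients, tested with the complete system `e`:
`⟨V, e i⟩' = s i ⟨V, e (σ i)⟩ - ν ⟨∇V, ∇e i⟩ + bil V V (e i)`. -/
structure FSol {I : Type} (ν : ℝ) (e : I → Fam) (σ : I → I) (s : I → ℝ) (T : ℝ)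
    (V : ℝ → Fam) : Prop where
  ot : ∀ t ∈ Ico 0 T, OT (V t)
  rap : ∀ m : ℕ, ∀ T' < T, ∃ M, ∀ t ∈ Icc 0 T', ∀ k, ‖vec k‖ ^ m * ‖V t k‖ ≤ M
  eqn : ∀ i, ∀ t ∈ Ico 0 T, HasDerivWithinAt (fun τ => pair (V τ) (e i))
    (s i * pair (V t) (e (σ i)) - ν * lp (V t) (e i) + bil (V t) (V t) (e i)) (Ico 0 T) t

/-- the involution of the modes -/
def σ2 {J : Type} (σ : J → J) : Ix J → Ix J
  | Sum.inl n => Sum.inl n
  | Sum.inr j => Sum.inr (σ j)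

/-- the coefficients of the skew term -/
noncomputable def s2 {J : Type} (Q κ : ℝ) (L : ℕ → ℝ) (g : J → ℕ) (τ : J → ℝ) : Ix J → ℝ
  | Sum.inl _ => 0
  | Sum.inr j => Om Q κ L (g j / 2) * τ j

/-- the series `∑ y a • e a` -/
noncomputable def sy {J : Type} (e : Ix J → Fam) (y : Ix J → ℝ) : Fam := fun k => ∑' a, y a • e a k

/-! ### Fields -/

/-- The operator `A = ∑ s i ⟨·, e (σ i)⟩ e i` is of order 2: its bilinear form is bounded by the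
Dirichlet norms, and it maps smooth fields to smooth fields, `H^(m+2)` to `H^m`. -/
structure Ord2 {ι : Type} (e : ι → E3 → E3) (σ : ι → ι) (s : ι → ℝ) : Prop where
  form : ∃ Cf : ℝ, ∀ v w, PF v → PF w → Summable (fun i => s i * ip v (e (σ i)) * ip w (e i)) ∧
    |∑' i, s i * ip v (e (σ i)) * ip w (e i)| ≤ Cf * (√(dir v) * √(dir w))
  ord : ∀ m : ℕ, ∃ Cm : ℝ, ∀ v, PF v → ∃ w, PF w ∧ (∀ i, ip w (e i) = s i * ip v (e (σ i))) ∧
    sob m w ≤ Cm * sob (m + 2) v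

end Pool.Agent.Y5.S2
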