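import Pool.Agent.Y5.S2.Asm7
import Pool.Agent.Y5.S2.Exs
import Pool.Agent.Y5.S2.Lap
import Pool.Agent.Y5.S2.Bes
import Pool.Agent.Y6.S.Main
import Pool.Agent.Y8.SK.Main
import Pool.Agent.Y8.SU.Sup
import Pool.Agent.Y954.S2.WPA
import Pool.Agent.Y614.S2.Est
import Pool.Agent.Y614.S2.Vel
import Pool.Agent.Y689.S2.WPC
import Pool.Agent.Y515.NS6.BlowA6
import Pool.Agent.Y971.S2.TAB3
import Pool.Agent.Y455.NS.SEQ6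
import Pool.Agent.Y809.S2.ONB6
import Pool.Agent.Z864.S2.Uni6
import Pool.Agent.Y692.S2.Ord
import Pool.Agent.Y692.S2.Ex
import Pool.Agent.Y232.NS.Ord
import Pool.Agent.Y658.S2.BS6
import Pool.Agent.Y153.NSK.FLDB
import Pool.Agent.Y274.NE.B5
import Pool.Agent.Y288.NS.Obc

/-! The main theorem: assembly of all parts. -/

set_option autoImplicit false

namespace Pool.Agent.Y5.S2

open Pool.Agent.Y5 Pool.Agent.Y5.D Pool.Agent.Y5.E Pool.Agent.Y5.F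

theorem t_DYN6 : S_DYN6 := Pool.Agent.Y6.S.t_DYN6_of Pool.Agent.Y8.SK.s_ODERT

theorem t_WP6 : S_WP6 := Pool.Agent.Y689.S2.t_WPC Pool.Agent.Y954.S2.t_WPA
  Pool.Agent.Y614.S2.t_EST6

theorem t_BLOW6 : S_BLOW6 := Pool.Agent.Y515.NS6.t_BLOWA6 t_WP6 t_DYN6

theorem t_CONC6 : S_CONC6 :=
  Pool.Agent.Y809.S2.t_ONB6 Pool.Agent.Y971.S2.t_TAB3 Pool.Agent.Y455.NS.t_SEQ6

theorem t_EXS : S_EXS :=
  exs_of t_BLOW6 t_CONC6 Lap.t_LAP6 Pool.Agent.Y658.S2.t_BS6 Pool.Agent.Y692.S2.t_EX6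
    Pool.Agent.Y614.S2.t_VEL6 Pool.Agent.Y8.SU.t_SUP6 (t_BES6 Pool.Agent.Y658.S2.t_BS6)
    Pool.Agent.Y692.S2.t_ORD6 Pool.Agent.Y691.ND.t_FLD

theorem t_MAIN7 : S_MAIN7 :=
  t_ASM7 Pool.Agent.Y691.ND.t_FLD Pool.Agent.Y274.NE.t_FLD2 Pool.Agent.Y153.NSK.t_FLDB t_EXS
    Pool.Agent.Z864.S2.t_UNI6 Pool.Agent.Y288.NS.t_DIL Pool.Agent.Y288.NS.t_CMP
    (Pool.Agent.Y288.NS.t_OBC Pool.Agent.Y288.NS.t_DIL Pool.Agent.Y288.NS.t_CMP)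
    Pool.Agent.Y232.NS.t_ORDD

end Pool.Agent.Y5.S2
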