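import Pool.Agent.Y5.S2.Stm
import Pool.Agent.Y5.G.Stm

/-!
Dilation: the skew term of order 2 is also small in the sense of forms of order `2 + 2 ε`.
-/

open Set Filter Topology MeasureTheory

set_option autoImplicit false

namespace Pool.Agent.Y5.S2

open Pool.Agent.Y5 Pool.Agent.Y5.D Pool.Agent.Y5.E Pool.Agent.Y5.F
open Pool.Agent.Y6.N (lin Dm Skew SolN S_FLDB)
open Pool.Agent.Y5.G (OB S_DIL S_CMP S_OBC Kx dil res fk eC)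
open Pool.Agent.Y274.NE (Bs)

/-- The facts on the orthonormal system in the form of `Y274.NE.Bs`. -/
def S_BS6 : Prop := ∀ (J : Type) (g : J → ℕ) (σ : J → J) (τ : J → ℝ)
  (ν κ μ lam Λ M A : ℝ) (F L C ℓ N G : ℕ → ℝ) (B : ℕ → ℕ → ℝ) (e : Ix J → Fam), 0 < A →
  Conc6 ν κ μ lam g σ τ F L ℓ N G e → Sq6 κ μ lam Λ M L C ℓ B →
  Ker g Λ M L C B (fun j a b => A * bil (e a) (e b) (e j)) →
  ∃ M' : ℕ → ℝ, Bs g L M' e

/-- the energy in the frequencies `K ≤ |k|` -/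
noncomputable def hf (K : ℝ) (V : Fam) : ℝ := ∑' k : Z3, if K ≤ ‖vec k‖ then ‖V k‖ ^ 2 else 0

/-- The critical Besov norm `B^(1/2)_(2,∞)` stays bounded. -/
def S_BES6 : Prop := ∀ (J : Type) (g : J → ℕ) (σ : J → J) (τ : J → ℝ)
  (ν κ μ lam Λ M A : ℝ) (F L C ℓ N G : ℕ → ℝ) (B : ℕ → ℕ → ℝ) (e : Ix J → Fam), 0 < A →
  Conc6 ν κ μ lam g σ τ F L ℓ N G e → Sq6 κ μ lam Λ M L C ℓ B →
  Ker g Λ M L C B (fun j a b => A * bil (e a) (e b) (e j)) →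
  ∀ (T : ℝ) (z : Ix J → ℝ → ℝ), Rapid (rI L g) T z →
    TI κ T L (fun n => z (Sum.inl n)) (wz g z) →
    ∃ X : ℝ, ∀ t ∈ Ico 0 T, ∀ K : ℝ, 0 < K → K * hf K (sy e (fun a => A * z a t)) ≤ X

/-- Blow-up in terms of the coefficients. -/
def S_EXS : Prop := ∀ ν : ℝ, 0 < ν → ∃ (J : Type) (g : J → ℕ) (L M : ℕ → ℝ) (e : Ix J → Fam)
  (σ : Ix J → Ix J) (s : Ix J → ℝ) (T : ℝ) (V : ℝ → Fam), Bs g L M e ∧ (∀ i, σ (σ i) = i) ∧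
    (∀ i, s (σ i) = -s i) ∧ Ord2 (fun a => fieldOf (e a)) σ s ∧ 0 < T ∧ FSol ν e σ s T V ∧
    (∃ R, ∀ k, V 0 k ≠ 0 → ‖vec k‖ ≤ R) ∧
    (∀ R : ℝ, ∃ t ∈ Ico 0 T, ∃ y, R < ‖fieldOf (V t) y‖) ∧
    (∃ X : ℝ, ∀ t ∈ Ico 0 T, ∀ y, ‖fieldOf (V t) y‖ * √(T - t) ≤ X) ∧
    ∃ X : ℝ, ∀ t ∈ Ico 0 T, ∀ K : ℝ, 0 < K → K * hf K (V t) ≤ X

/-- the involution of the combined system -/
def σC {J : Type} (N : ℕ) (σ : Ix J → Ix J) : Ix J ⊕ Kx N → Ix J ⊕ Kx N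
  | Sum.inl i => Sum.inl (σ i)
  | Sum.inr p => Sum.inr p

/-- the skew term of the combined system -/
noncomputable def sC {J : Type} (N : ℕ) (s : Ix J → ℝ) : Ix J ⊕ Kx N → ℝ
  | Sum.inl i => (N : ℝ) ^ 2 * s i
  | Sum.inr _ => 0

/-- The operator `A = ∑ s i ⟨·, e (σ i)⟩ e i` is of order 2, and small as a form of order
`2 + 2 ε`. -/
structure Ord3 {ι : Type} (ε δ : ℝ) (e : ι → E3 → E3) (σ : ι → ι) (s : ι → ℝ) : Prop where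
  form : ∃ Cf : ℝ, ∀ v w, PF v → PF w → Summable (fun i => s i * ip v (e (σ i)) * ip w (e i)) ∧
    |∑' i, s i * ip v (e (σ i)) * ip w (e i)| ≤ Cf * (√(dir v) * √(dir w))
  small : ∀ v w, PF v → PF w →
    |∑' i, s i * ip v (e (σ i)) * ip w (e i)| ≤ δ * (√(sob (1 + ε) v) * √(sob (1 + ε) w))
  ord : ∀ m : ℕ, ∃ Cm : ℝ, ∀ v, PF v → ∃ w, PF w ∧ (∀ i, ip w (e i) = s i * ip v (e (σ i))) ∧
    sob m w ≤ Cm * sob (m + 2) v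

/-- The order of the dilated operator. -/
def S_ORDD : Prop := S_FLD2 → S_DIL → S_CMP → ∀ (J : Type) (g : J → ℕ) (L M : ℕ → ℝ)
  (e : Ix J → Fam) (σ : Ix J → Ix J) (s : Ix J → ℝ) (ε δ : ℝ), 0 < ε → 0 < δ → Bs g L M e →
  Ord2 (fun a => fieldOf (e a)) σ s →
  ∃ N : ℕ, 0 < N ∧ Ord3 ε δ (fun a => fieldOf (eC N e a)) (σC N σ) (sC N s)

/-- The main theorem: for all `ν, ε, δ > 0` there is a skew-adjoint operator `A` of order 2,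
`|⟨A v, w⟩| ≤ δ ‖v‖_(1+ε) ‖w‖_(1+ε)`, for which the Navier-Stokes equations with the additional
term `A u` blow up, with the rate of Type I, and with bounded norm in `B^(1/2)_(2,∞)`. -/
def S_MAIN7 : Prop := ∀ ν ε δ : ℝ, 0 < ν → 0 < ε → 0 < δ →
  ∃ (ι : Type) (e : ι → E3 → E3) (σ : ι → ι) (s : ι → ℝ)
  (T : ℝ) (u : ℝ → E3 → E3), Skew e σ s ∧ Ord3 ε δ e σ s ∧ 0 < T ∧ SolN ν e σ s T u ∧
    TP (u 0) ∧
    -- uniqueness, and `T` is the maximal time of existence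
    (∀ (T' : ℝ) (v : ℝ → E3 → E3), 0 < T' → SolN ν e σ s T' v → v 0 = u 0 →
      T' ≤ T ∧ ∀ t ∈ Ico 0 T', v t = u t) ∧
    -- the energy identity of the Navier-Stokes equations
    (∀ t ∈ Ico 0 T, HasDerivWithinAt (fun τ => ip (u τ) (u τ)) (-(2 * (ν * dir (u t))))
      (Ico 0 T) t) ∧
    -- blow-up of the velocity
    (∀ M : ℝ, ∃ t ∈ Ico 0 T, ∃ y, M < ‖u t y‖) ∧
    -- of Type I
    (∃ X : ℝ, ∀ t ∈ Ico 0 T, ∀ y, ‖u t y‖ * √(T - t) ≤ X) ∧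
    -- with bounded critical norm `B^(1/2)_(2,∞)`
    ∃ X : ℝ, ∀ t ∈ Ico 0 T, ∀ K : ℝ, 0 < K → K * hf K (cf (u t)) ≤ X

/-- The assembly. -/
def S_ASM7 : Prop := S_FLD → S_FLD2 → S_FLDB → S_EXS → S_UNI6 → S_DIL → S_CMP → S_OBC →
  S_ORDD → S_MAIN7

end Pool.Agent.Y5.S2
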